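import Pool.Agent.Lib.MP_e81270_lc_h78.Walk

/-!
# Counting: satisfiable formulas, falsifying assignments, circuits
-/

set_option autoImplicit false

namespace Pool.Agent.MP_e81270_lc_h78

open Finset

variable {n w m : ℕ}

open scoped Classical in
theorem card_bad (C : Clause n w) : 2 ^ w * (bad C).card = 2 ^ n := by
  let t : Fin n → Finset Bool := fun j => univ.filter (fun b => ∀ i, C.1 i = j → C.2 i = !b)
  have h1 : bad C = Fintype.piFinset t := by
    ext x
    rw [mem_bad, Fintype.mem_piFinset]
    simp only [t, mem_filter, mem_univ, true_and]
    constructor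
    · rintro h j i rfl
      exact h i
    · intro h i
      exact h (C.1 i) i rfl
  have h2 : ∀ j, (if j ∈ Set.range C.1 then 2 else 1) * (t j).card = 2 := by
    intro j
    split_ifs with h
    · obtain ⟨i, rfl⟩ := h
      have : t (C.1 i) = {!C.2 i} := by
        ext b
        simp only [t, mem_filter, mem_univ, true_and, mem_singleton]
        constructor
        · intro h
          rw [h i rfl]; simp
        · rintro rfl i' hi'
          rw [C.1.injective hi']; simp
      rw [this]; simp
    · have : t j = univ := by
        ext b
        simp only [t, mem_filter, mem_univ, true_and, iff_true]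
        intro i hi
        exact absurd ⟨i, hi⟩ h
      rw [this]; simp
  have h3 : ∏ j : Fin n, ((if j ∈ Set.range C.1 then 2 else 1) * (t j).card) = 2 ^ n := by
    rw [prod_congr rfl (fun j _ => h2 j)]; simp
  rw [prod_mul_distrib, ← Fintype.card_piFinset, ← h1] at h3
  rw [← h3]
  congr 1
  rw [prod_ite]
  simp only [prod_const, one_pow, mul_one]
  congr 1
  have : (univ.filter (fun j : Fin n => j ∈ Set.range C.1)) = univ.map C.1 := by
    ext j
    simp
  rw [this]; simp

open scoped Classical in
theorem card_sat (n w m : ℕ) :
    ((univ.filter (fun F : CNF n w m => ¬ Unsat F)).card : ℝ)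
      ≤ 2 ^ n * (1 - 1 / 2 ^ w) ^ m * Fintype.card (CNF n w m) := by
  have h1 : (univ.filter (fun F : CNF n w m => ¬ Unsat F)) ⊆
      (univ : Finset (Fin n → Bool)).biUnion (fun x =>
        Fintype.piFinset (fun _ : Fin m => univ.filter (fun C : Clause n w => x ∉ bad C))) := by
    intro F hF
    rw [mem_filter] at hF
    unfold Unsat at hF
    push Not at hF
    obtain ⟨_, x, hx⟩ := hF
    rw [mem_biUnion]
    refine ⟨x, mem_univ _, ?_⟩
    rw [Fintype.mem_piFinset]
    intro i
    simp only [mem_filter, mem_univ, true_and]
    unfold bad
    simp [hx i]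
  have h2 : ∀ x : Fin n → Bool,
      ((univ.filter (fun C : Clause n w => x ∉ bad C)).card : ℝ)
        = (1 - 1 / 2 ^ w) * Fintype.card (Clause n w) := by
    intro x
    have h3 := card_single (w := w) x
    have h4 := card_filter_add_card_filter_not (s := (univ : Finset (Clause n w)))
      (fun C => x ∈ bad C)
    rw [h3, card_univ] at h4
    have h5 : ((univ.filter (fun C : Clause n w => x ∉ bad C)).card : ℝ)
        = Fintype.card (Clause n w) - n.descFactorial w := by
      rw [← h4]; push_cast; ring
    rw [h5, card_clause]
    push_cast
    field_simp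
  calc ((univ.filter (fun F : CNF n w m => ¬ Unsat F)).card : ℝ)
      ≤ ∑ x : Fin n → Bool, ((Fintype.piFinset (fun _ : Fin m =>
          univ.filter (fun C : Clause n w => x ∉ bad C))).card : ℝ) := by
        exact_mod_cast (card_le_card h1).trans card_biUnion_le
    _ = ∑ _x : Fin n → Bool, ((1 - 1 / 2 ^ w : ℝ) * (Fintype.card (Clause n w) : ℝ)) ^ m := by
        apply sum_congr rfl
        intro x _
        rw [Fintype.card_piFinset]
        simp only [prod_const, card_univ, Fintype.card_fin]
        push_cast
        rw [h2 x]
    _ = _ := by
        rw [sum_const, nsmul_eq_mul, card_univ]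
        have : Fintype.card (CNF n w m) = Fintype.card (Clause n w) ^ m := by
          rw [Fintype.card_fun, Fintype.card_fin]
        rw [this]
        have : Fintype.card (Fin n → Bool) = 2 ^ n := by simp
        rw [this, mul_pow]
        push_cast
        ring

/-- The set of assignments under which the circuit computes `false`. -/
def falseSet (c : Circuit n) : Finset (Fin n → Bool) :=
  univ.filter (fun x => eval c x = false)

/-- Gates which read only the first `S + 1` gates. -/
abbrev NGate (n S : ℕ) := (Bool → Bool → Bool) × (Fin n ⊕ Fin (S + 1)) × (Fin n ⊕ Fin (S + 1))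

/-- A wire of a restricted gate. -/
def toWire {S : ℕ} : Fin n ⊕ Fin (S + 1) → Wire n
  | Sum.inl i => Sum.inl i
  | Sum.inr j => Sum.inr j.val

/-- A restricted gate as a gate. -/
def toGate {S : ℕ} (g : NGate n S) : Gate n := ⟨g.1, toWire g.2.1, toWire g.2.2⟩

/-- Restriction of a wire. -/
def normWire (S : ℕ) : Wire n → Fin n ⊕ Fin (S + 1)
  | Sum.inl i => Sum.inl i
  | Sum.inr j => Sum.inr ⟨min j S, by omega⟩

/-- Restriction of a gate. -/
def normGate (S : ℕ) (g : Gate n) : NGate n S := (g.fn, normWire S g.arg₁, normWire S g.arg₂)

theorem look_norm (S : ℕ) (x : Fin n → Bool) (v : List Bool) (hv : v.length ≤ S) (u : Wire n) :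
    look x v (toWire (normWire S u)) = look x v u := by
  rcases u with i | j
  · rfl
  · change v.getD (min j S) false = v.getD j false
    rcases le_total j S with h | h
    · rw [min_eq_left h]
    · rw [min_eq_right h, List.getD_eq_default _ _ (by omega), List.getD_eq_default _ _ (by omega)]

theorem values_norm (S : ℕ) (x : Fin n → Bool) (c : Circuit n) :
    ∀ v : List Bool, v.length + c.length ≤ S →
    c.foldl (fun v g => v ++ [g.fn (look x v g.arg₁) (look x v g.arg₂)]) v
      = (c.map (fun g => toGate (normGate S g))).foldl
        (fun v g => v ++ [g.fn (look x v g.arg₁) (look x v g.arg₂)]) v := by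
  induction c with
  | nil => intro v _; rfl
  | cons g c ih =>
    intro v hv
    rw [List.length_cons] at hv
    simp only [List.foldl_cons, List.map_cons]
    have h1 : (toGate (normGate S g)).fn (look x v (toGate (normGate S g)).arg₁)
        (look x v (toGate (normGate S g)).arg₂) = g.fn (look x v g.arg₁) (look x v g.arg₂) := by
      change g.fn (look x v (toWire (normWire S g.arg₁))) (look x v (toWire (normWire S g.arg₂)))
        = _
      rw [look_norm S x v (by omega), look_norm S x v (by omega)]
    rw [h1]
    apply ih
    rw [List.length_append]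
    simp only [List.length_cons, List.length_nil]
    omega

/-- All lists of length at most `S` over a finite type. -/
def allLists (α : Type) [Fintype α] [DecidableEq α] : ℕ → Finset (List α)
  | 0 => {[]}
  | S + 1 => insert [] (((univ : Finset α) ×ˢ allLists α S).image (fun p => p.1 :: p.2))

theorem mem_allLists (α : Type) [Fintype α] [DecidableEq α] (S : ℕ) :
    ∀ l : List α, l.length ≤ S → l ∈ allLists α S := by
  induction S with
  | zero =>
    intro l hl
    have : l = [] := List.length_eq_zero_iff.mp (by omega)
    simp [allLists, this]
  | succ S ih =>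
    intro l hl
    rcases l with _ | ⟨a, l⟩
    · simp [allLists]
    · rw [List.length_cons] at hl
      have := ih l (by omega)
      simp only [allLists, mem_insert, reduceCtorEq, false_or, mem_image, mem_product, mem_univ,
        true_and]
      exact ⟨(a, l), this, rfl⟩

theorem card_allLists (α : Type) [Fintype α] [DecidableEq α] (S : ℕ) :
    (allLists α S).card ≤ (Fintype.card α + 1) ^ S := by
  induction S with
  | zero => simp [allLists]
  | succ S ih =>
    simp only [allLists]
    refine (card_insert_le _ _).trans ?_
    have h1 : (((univ : Finset α) ×ˢ allLists α S).image (fun p => p.1 :: p.2)).card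
        ≤ Fintype.card α * (Fintype.card α + 1) ^ S := by
      refine card_image_le.trans ?_
      rw [card_product, card_univ]
      exact Nat.mul_le_mul_left _ ih
    have h2 : 1 ≤ (Fintype.card α + 1) ^ S := Nat.one_le_pow _ _ (by omega)
    rw [pow_succ]
    calc _ ≤ Fintype.card α * (Fintype.card α + 1) ^ S + (Fintype.card α + 1) ^ S := by omega
      _ = _ := by ring

/-- The false sets of the circuits with at most `S` gates. -/
def family (n S : ℕ) : Finset (Finset (Fin n → Bool)) :=
  (allLists (NGate n S) S).image (fun c => falseSet (c.map toGate))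

theorem mem_family (S : ℕ) (c : Circuit n) (hc : c.length ≤ S) : falseSet c ∈ family n S := by
  unfold family
  rw [mem_image]
  refine ⟨c.map (normGate S), mem_allLists _ S _ (by simpa using hc), ?_⟩
  unfold falseSet
  congr 1
  funext x
  unfold eval values
  rw [values_norm S x c [] (by simpa using hc), List.map_map]
  rfl

theorem card_family (n S : ℕ) : (family n S).card ≤ (16 * (n + S + 1) ^ 2 + 1) ^ S := by
  unfold family
  refine card_image_le.trans ((card_allLists _ S).trans ?_)
  apply le_of_eq
  congr 2
  have h1 : Fintype.card (Bool → Bool → Bool) = 16 := by simp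
  rw [Fintype.card_prod, Fintype.card_prod, Fintype.card_sum, Fintype.card_fin, Fintype.card_fin,
    h1]
  ring

end Pool.Agent.MP_e81270_lc_h78
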