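import Mathlib

/-!
# Random CNFs and semantic refutations with circuit lines

The definitions used by the statement of `SizeDepth`.
-/

set_option autoImplicit false

namespace Pool.Agent.MP_e81270_lc_h78

/-- A clause of `w` literals on `w` different variables among `n` variables: the `i`-th literal
is satisfied by the assignments that give the variable `C.1 i` the value `C.2 i`. -/
abbrev Clause (n w : ℕ) := (Fin w ↪ Fin n) × (Fin w → Bool)

/-- The assignment `x` satisfies the clause `C`: it satisfies one of the literals of `C`. -/
def Sat {n w : ℕ} (x : Fin n → Bool) (C : Clause n w) : Prop := ∃ i, x (C.1 i) = C.2 i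

/-- A formula in conjunctive normal form: `m` clauses of `w` literals in `n` variables. -/
abbrev CNF (n w m : ℕ) := Fin m → Clause n w

/-- No assignment satisfies all clauses of the formula `F`. -/
def Unsat {n w m : ℕ} (F : CNF n w m) : Prop := ∀ x : Fin n → Bool, ∃ i, ¬ Sat x (F i)

/-- A wire of a circuit with `n` inputs: an input, or the gate with a given number. -/
abbrev Wire (n : ℕ) := Fin n ⊕ ℕ

/-- A gate of a circuit: a binary Boolean connective and the two wires it reads. -/
structure Gate (n : ℕ) where
  fn : Bool → Bool → Bool
  arg₁ : Wire n
  arg₂ : Wire n

/-- The value of a wire under the assignment `x`, when `v` is the list of the values of the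
gates computed so far.  (A gate which is not computed yet reads as `false`.) -/
def look {n : ℕ} (x : Fin n → Bool) (v : List Bool) : Wire n → Bool
  | Sum.inl i => x i
  | Sum.inr j => v.getD j false

/-- A Boolean circuit with `n` inputs: the list of its gates, in the order in which they are
computed. -/
abbrev Circuit (n : ℕ) := List (Gate n)

/-- The values of the gates of the circuit `c` under the assignment `x`, in order. -/
def values {n : ℕ} (c : Circuit n) (x : Fin n → Bool) : List Bool :=
  c.foldl (fun v g => v ++ [g.fn (look x v g.arg₁) (look x v g.arg₂)]) []

/-- The value computed by the circuit `c`: the value of its last gate. -/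
def eval {n : ℕ} (c : Circuit n) (x : Fin n → Bool) : Bool := (values c x).getLastD false

/-- A (dag-like, semantic) refutation of the formula `F` with `L` lines and depth at most `D`.
Each line is a Boolean circuit with at most `S` gates in the variables of `F`.  Each line is
implied by at most two lines of smaller level together with at most `S` clauses of `F`; the
levels are numbers between `0` and `D`.  One of the lines is unsatisfiable. -/
structure Refutation {n w m : ℕ} (F : CNF n w m) (S L D : ℕ) where
  line : Fin L → Circuit n
  size : ∀ t, (line t).length ≤ S
  level : Fin L → ℕ
  level_le : ∀ t, level t ≤ D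
  sound : ∀ t, ∃ (P : Finset (Fin L)) (G : Finset (Fin m)), P.card ≤ 2 ∧ G.card ≤ S ∧
    (∀ s ∈ P, level s < level t) ∧
    ∀ x, (∀ s ∈ P, eval (line s) x = true) → (∀ i ∈ G, Sat x (F i)) → eval (line t) x = true
  last : ∃ t, ∀ x, eval (line t) x = false

end Pool.Agent.MP_e81270_lc_h78
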