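import Pool.Agent.Lib.MP_e81270_lc_h78.Main
import Pool.Agent.Lib.MP_e81270_lc_Depth.Lines

/-!
# The size-depth trade-off for Extended Frege refutations
-/

set_option autoImplicit false

namespace Pool.Agent.MP_e81270_lc_h78

open Finset Filter Topology

/-- The sets given by short memories are few. -/
theorem space_family_small (K : ℕ) : ∃ n₀ : ℕ, ∀ n ≥ n₀,
    (Pool.Agent.MP_e81270_lc.Space.family n (9 * n ^ K)).card ≤ 2 ^ (n ^ (K + 1)) := by
  obtain ⟨n₁, hn₁⟩ := log_small (18 * K + 90)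
  refine ⟨max n₁ 2, fun n hn => ?_⟩
  have hn1 : n₁ ≤ n := (le_max_left _ _).trans hn
  have hn2 : 2 ≤ n := (le_max_right _ _).trans hn
  refine (Pool.Agent.MP_e81270_lc.Space.card_family n (9 * n ^ K)).trans ?_
  set l := Nat.log 2 n + 1 with hl
  have hnl : n < 2 ^ l := Nat.lt_pow_succ_log_self (by norm_num) n
  have hl1 : 1 ≤ l := by omega
  have hnK : n ^ K ≤ 2 ^ (K * l) := by
    calc n ^ K ≤ (2 ^ l) ^ K := Nat.pow_le_pow_left hnl.le _
      _ = _ := by rw [← pow_mul, mul_comm]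
  have h1 : n + 9 * n ^ K + 2 ≤ 2 ^ (K * l + l + 4) := by
    have a1 : 1 ≤ 2 ^ (K * l) := Nat.one_le_two_pow
    have a2 : 1 ≤ 2 ^ l := Nat.one_le_two_pow
    have a3 : 2 ^ (K * l + l + 4) = 16 * (2 ^ (K * l) * 2 ^ l) := by
      rw [pow_add, pow_add]; ring
    have a4 : 2 ^ (K * l) ≤ 2 ^ (K * l) * 2 ^ l := Nat.le_mul_of_pos_right _ (by omega)
    have a5 : 2 ^ l ≤ 2 ^ (K * l) * 2 ^ l := Nat.le_mul_of_pos_left _ (by omega)
    omega
  calc (n + 9 * n ^ K + 2) ^ (2 * (9 * n ^ K))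
      ≤ (2 ^ (K * l + l + 4)) ^ (2 * (9 * n ^ K)) := Nat.pow_le_pow_left h1 _
    _ = 2 ^ ((K * l + l + 4) * (2 * (9 * n ^ K))) := (pow_mul _ _ _).symm
    _ ≤ 2 ^ (n ^ (K + 1)) := by
        apply Nat.pow_le_pow_right (by norm_num)
        have h3 : (K * l + l + 4) * 18 ≤ n := by
          refine le_trans ?_ (hn₁ n hn1)
          nlinarith
        calc (K * l + l + 4) * (2 * (9 * n ^ K)) = ((K * l + l + 4) * 18) * n ^ K := by ring
          _ ≤ n * n ^ K := Nat.mul_le_mul_right _ h3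
          _ = n ^ (K + 1) := by rw [pow_succ, mul_comm]

/-- The trade-off for the parameters `K`, `C` with the constant `c`. -/
def Holds' (K C : ℕ) (c : ℝ) : Prop := ∃ n₀ : ℕ, ∀ n ≥ n₀, ∀ w m : ℕ,
    w = C * (Nat.log 2 n + 1) → m = 2 * n * 2 ^ w →
      w ≤ n ∧ m ≤ n ^ (C + 2) ∧
      (Nat.card {F : Fin m → Pool.Agent.MP_e81270_lc.Space.Clause n w //
        ¬ (Pool.Agent.MP_e81270_lc.Space.Unsat F ∧
          ∀ (L d : ℕ) (D : ℕ → Pool.Agent.MP_e81270_lc.Space.Fml)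
            (A : Fin L → Pool.Agent.MP_e81270_lc.Space.Fml) (h : Fin L → ℕ),
            Pool.Agent.MP_e81270_lc.Depth.IsRefutation F (n ^ K) L d D A h →
            c * (n : ℝ) ^ 2 ≤ d * Real.logb 2 L)} : ℝ) ≤
          (1 / 2) ^ n * Nat.card (Fin m → Pool.Agent.MP_e81270_lc.Space.Clause n w)

theorem Holds'.mono {K C : ℕ} {c c' : ℝ} (h : Holds' K C c) (hc : c' ≤ c) : Holds' K C c' := by
  obtain ⟨n₀, hn₀⟩ := h
  refine ⟨n₀, fun n hn w m hw hm => ?_⟩
  obtain ⟨h1, h2, h3⟩ := hn₀ n hn w m hw hm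
  refine ⟨h1, h2, le_trans ?_ h3⟩
  have : Nat.card {F : Fin m → Pool.Agent.MP_e81270_lc.Space.Clause n w //
        ¬ (Pool.Agent.MP_e81270_lc.Space.Unsat F ∧
          ∀ (L d : ℕ) (D : ℕ → Pool.Agent.MP_e81270_lc.Space.Fml)
            (A : Fin L → Pool.Agent.MP_e81270_lc.Space.Fml) (h : Fin L → ℕ),
            Pool.Agent.MP_e81270_lc.Depth.IsRefutation F (n ^ K) L d D A h →
            c' * (n : ℝ) ^ 2 ≤ d * Real.logb 2 L)} ≤
      Nat.card {F : Fin m → Pool.Agent.MP_e81270_lc.Space.Clause n w //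
        ¬ (Pool.Agent.MP_e81270_lc.Space.Unsat F ∧
          ∀ (L d : ℕ) (D : ℕ → Pool.Agent.MP_e81270_lc.Space.Fml)
            (A : Fin L → Pool.Agent.MP_e81270_lc.Space.Fml) (h : Fin L → ℕ),
            Pool.Agent.MP_e81270_lc.Depth.IsRefutation F (n ^ K) L d D A h →
            c * (n : ℝ) ^ 2 ≤ d * Real.logb 2 L)} := by
    apply Nat.card_le_card_of_injective (Subtype.map id ?_)
      (Subtype.map_injective _ Function.injective_id)
    intro F hF hcon
    apply hF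
    refine ⟨hcon.1, fun L d D A h hR => le_trans ?_ (hcon.2 L d D A h hR)⟩
    exact mul_le_mul_of_nonneg_right hc (by positivity)
  exact_mod_cast this

/-- From an Extended Frege refutation to an abstract refutation. -/
theorem toAbs' {n w m s L d : ℕ} {F : Fin m → Pool.Agent.MP_e81270_lc.Space.Clause n w}
    {D : ℕ → Pool.Agent.MP_e81270_lc.Space.Fml} {A : Fin L → Pool.Agent.MP_e81270_lc.Space.Fml}
    {h : Fin L → ℕ} (hR : Pool.Agent.MP_e81270_lc.Depth.IsRefutation F s L d D A h) :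
    Nonempty (AbsRef (F : CNF n w m)
      (Pool.Agent.MP_e81270_lc.Space.family n (9 * s)) s L d) := by
  obtain ⟨h1, h2, h3⟩ := Pool.Agent.MP_e81270_lc.Depth.zeroSet_of_refutation hR
  refine ⟨{ Z := fun t => Pool.Agent.MP_e81270_lc.Depth.zeroSet n D (A t)
            mem := h1
            level := h
            sound := ?_
            last := h3 }⟩
  intro t
  obtain ⟨P, S, hP, hS, hlt, hcov⟩ := h2 t
  refine ⟨P, S, hP, hS, fun i hi => (hlt i hi).2, fun x hx => ?_⟩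
  rcases hcov x hx with h4 | ⟨i, hi, h4⟩
  · exact Or.inl h4
  · refine Or.inr ⟨i, hi, ?_⟩
    rw [mem_bad]
    intro j
    have := h4 j
    rw [this, Bool.not_not]

theorem holds_core (K : ℕ) (ε : ℝ) (hε : 0 < ε) : ∃ C₀ : ℕ, ∀ C ≥ K + 8, ∃ c : ℝ, 0 < c ∧
    (C₀ ≤ C → 1 / 2 - ε ≤ c) ∧ Holds' K C c := by
  classical
  obtain ⟨C₀, hC₀⟩ := core (K + 1) ε hε
  obtain ⟨n₁, hn₁⟩ := space_family_small K
  refine ⟨C₀, fun C hC => ?_⟩
  obtain ⟨c, hc, hcC, n₀, hn₀⟩ := hC₀ C (by omega)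
  obtain ⟨n₂, hn₂⟩ := log_small C
  refine ⟨c, hc, hcC, max (max n₀ n₁) (max n₂ (2 ^ (C + 1))), fun n hn w m hw hm => ?_⟩
  have hn0 : n₀ ≤ n := ((le_max_left _ _).trans (le_max_left _ _)).trans hn
  have hn1 : n₁ ≤ n := ((le_max_right _ _).trans (le_max_left _ _)).trans hn
  have hn2 : n₂ ≤ n := ((le_max_left _ _).trans (le_max_right _ _)).trans hn
  have hn3 : 2 ^ (C + 1) ≤ n := ((le_max_right _ _).trans (le_max_right _ _)).trans hn
  have hnpos : 0 < n := lt_of_lt_of_le (by positivity) hn3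
  refine ⟨?_, ?_, ?_⟩
  · rw [hw]
    exact hn₂ n hn2
  · rw [hm, hw]
    have h1 : 2 ^ Nat.log 2 n ≤ n := Nat.pow_log_le_self 2 hnpos.ne'
    have h2 : 2 ^ (C * (Nat.log 2 n + 1)) ≤ (2 * n) ^ C := by
      calc 2 ^ (C * (Nat.log 2 n + 1)) = (2 * 2 ^ Nat.log 2 n) ^ C := by
            rw [← pow_succ', ← pow_mul, mul_comm]
        _ ≤ (2 * n) ^ C := Nat.pow_le_pow_left (Nat.mul_le_mul_left _ h1) _
    calc 2 * n * 2 ^ (C * (Nat.log 2 n + 1)) ≤ 2 * n * (2 * n) ^ C := Nat.mul_le_mul_left _ h2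
      _ = 2 ^ (C + 1) * n ^ (C + 1) := by rw [← mul_pow, pow_succ]; ring
      _ ≤ n * n ^ (C + 1) := Nat.mul_le_mul_right _ hn3
      _ = n ^ (C + 2) := by rw [pow_succ n (C + 1), mul_comm]
  · have hmain := hn₀ n hn0 w m hw hm _ (hn₁ n hn1)
    have hcard : Fintype.card (CNF n w m)
        = Nat.card (Fin m → Pool.Agent.MP_e81270_lc.Space.Clause n w) := by
      rw [Nat.card_eq_fintype_card]
    rw [hcard] at hmain
    refine le_trans ?_ hmain
    rw [← Fintype.card_subtype, ← Nat.card_eq_fintype_card]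
    have hsub : ∀ F : CNF n w m, ¬ (Pool.Agent.MP_e81270_lc.Space.Unsat F ∧
          ∀ (L d : ℕ) (D : ℕ → Pool.Agent.MP_e81270_lc.Space.Fml)
            (A : Fin L → Pool.Agent.MP_e81270_lc.Space.Fml) (h : Fin L → ℕ),
            Pool.Agent.MP_e81270_lc.Depth.IsRefutation F (n ^ K) L d D A h →
            c * (n : ℝ) ^ 2 ≤ d * Real.logb 2 L) →
        ¬ (Unsat F ∧ ∀ L D : ℕ,
          AbsRef F (Pool.Agent.MP_e81270_lc.Space.family n (9 * n ^ K)) (n ^ (K + 1)) L D →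
          c * (n : ℝ) ^ 2 ≤ D * Real.logb 2 L) := by
      intro F hF hcon
      apply hF
      refine ⟨?_, fun L d D A h hR => ?_⟩
      · intro v
        obtain ⟨i, hi⟩ := hcon.1 (fun j => v j)
        exact ⟨i, fun hh => hi hh⟩
      · obtain ⟨B⟩ := toAbs' hR
        have hGG : n ^ K ≤ n ^ (K + 1) := Nat.pow_le_pow_right hnpos (by omega)
        exact hcon.2 L d
          { Z := B.Z
            mem := B.mem
            level := B.level
            sound := by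
              intro t
              obtain ⟨P, G, h1, h2, h3⟩ := B.sound t
              exact ⟨P, G, h1, h2.trans hGG, h3⟩
            last := B.last }
    have := Nat.card_mono (Set.toFinite _) (show {F : CNF n w m |
        ¬ (Pool.Agent.MP_e81270_lc.Space.Unsat F ∧
          ∀ (L d : ℕ) (D : ℕ → Pool.Agent.MP_e81270_lc.Space.Fml)
            (A : Fin L → Pool.Agent.MP_e81270_lc.Space.Fml) (h : Fin L → ℕ),
            Pool.Agent.MP_e81270_lc.Depth.IsRefutation F (n ^ K) L d D A h →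
            c * (n : ℝ) ^ 2 ≤ d * Real.logb 2 L)} ⊆ {F : CNF n w m | ¬ (Unsat F ∧ ∀ L D : ℕ,
          AbsRef F (Pool.Agent.MP_e81270_lc.Space.family n (9 * n ^ K)) (n ^ (K + 1)) L D →
          c * (n : ℝ) ^ 2 ≤ D * Real.logb 2 L)} from hsub)
    exact_mod_cast this

theorem final (K : ℕ) : ∃ c : ℕ → ℝ, (∀ C ≥ K + 8, 0 < c C) ∧ Tendsto c atTop (𝓝 (1 / 2)) ∧
    ∀ C ≥ K + 8, Holds' K C (c C) := by
  classical
  -- the fallback constants
  have hfall : ∀ C : ℕ, ∃ c : ℝ, K + 8 ≤ C → 0 < c ∧ c ≤ 1 / 2 ∧ Holds' K C c := by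
    intro C
    by_cases hC : K + 8 ≤ C
    · obtain ⟨C₀, hC₀⟩ := holds_core K 1 one_pos
      obtain ⟨c, hc, _, hH⟩ := hC₀ C hC
      exact ⟨min c (1 / 2), fun _ => ⟨lt_min hc (by norm_num), min_le_right _ _,
        hH.mono (min_le_left _ _)⟩⟩
    · exact ⟨0, fun h => absurd h hC⟩
  choose c₀ hc₀ using hfall
  let P : ℕ → ℕ → Prop := fun C k => Holds' K C (1 / 2 - 1 / ((k : ℝ) + 2))
  let g : ℕ → ℕ := fun C => Nat.findGreatest (P C) C
  refine ⟨fun C => if 1 ≤ g C then 1 / 2 - 1 / ((g C : ℝ) + 2) else c₀ C, ?_, ?_, ?_⟩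
  · intro C hC
    dsimp only
    split_ifs with h
    · have h1 : (1 : ℝ) ≤ g C := by exact_mod_cast h
      have h2 : 1 / ((g C : ℝ) + 2) < 1 / 2 := by
        apply one_div_lt_one_div_of_lt (by norm_num)
        linarith
      linarith
    · exact (hc₀ C hC).1
  · rw [Metric.tendsto_atTop]
    intro ε hε
    obtain ⟨k, hk⟩ := exists_nat_gt (1 / ε)
    obtain ⟨C₀, hC₀⟩ := holds_core K (1 / ((k : ℝ) + 1 + 2)) (by positivity)
    refine ⟨max (max C₀ (k + 1)) (K + 8), fun C hC => ?_⟩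
    have hC1 : C₀ ≤ C := ((le_max_left _ _).trans (le_max_left _ _)).trans hC
    have hC2 : k + 1 ≤ C := ((le_max_right _ _).trans (le_max_left _ _)).trans hC
    have hC3 : K + 8 ≤ C := (le_max_right _ _).trans hC
    obtain ⟨c, hc, hcC, hH⟩ := hC₀ C hC3
    have hP : P C (k + 1) := by
      change Holds' K C (1 / 2 - 1 / (((k + 1 : ℕ) : ℝ) + 2))
      refine hH.mono ?_
      push_cast
      exact hcC hC1
    have hg : k + 1 ≤ g C := Nat.le_findGreatest hC2 hP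
    have hg1 : 1 ≤ g C := by omega
    have hgr : (k : ℝ) + 1 ≤ g C := by exact_mod_cast hg
    rw [if_pos hg1, Real.dist_eq]
    have hk0 : (0 : ℝ) ≤ k := by positivity
    have h3 : 0 < 1 / ((g C : ℝ) + 2) := by positivity
    have h4 : 1 / ((g C : ℝ) + 2) < ε := by
      rw [div_lt_iff₀ (by positivity)]
      rw [div_lt_iff₀ hε] at hk
      nlinarith
    rw [show 1 / 2 - 1 / ((g C : ℝ) + 2) - 1 / 2 = -(1 / ((g C : ℝ) + 2)) by ring, abs_neg,
      abs_of_pos h3]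
    exact h4
  · intro C hC
    dsimp only
    split_ifs with h
    · have h1 : P C (g C) := by
        by_cases h0 : ∃ k ≤ C, P C k ∧ 0 < k
        · obtain ⟨k, hk1, hk2, _⟩ := h0
          exact Nat.findGreatest_spec hk1 hk2
        · exact Nat.findGreatest_of_ne_zero rfl (by omega)
      exact h1
    · exact (hc₀ C hC).2.2

end Pool.Agent.MP_e81270_lc_h78
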