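import Pool.Agent.Lib.MP_e81270_lc_h78.Moment

/-!
# Histories and the union bound
-/

set_option autoImplicit false

namespace Pool.Agent.MP_e81270_lc_h78

open Finset

variable {n w m : ℕ}

/-- One step of a history: a restriction to a set (`true`) or to its complement (`false`), or no
restriction, followed by the removal of the assignments that falsify some clauses. -/
abbrev Step (n m : ℕ) := Option (Finset (Fin n → Bool) × Bool) × Finset (Fin m)

/-- The effect of a restriction. -/
def app (A : Finset (Fin n → Bool)) : Option (Finset (Fin n → Bool) × Bool) →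
    Finset (Fin n → Bool)
  | none => A
  | some (Z, s) => if s then A ∩ Z else A \ Z

/-- The set of assignments described by a history (the latest step comes first). -/
noncomputable def run (F : CNF n w m) : List (Step n m) → Finset (Fin n → Bool)
  | [] => univ
  | (o, S) :: l => app (run F l) o \ S.biUnion (fun i => bad (F i))

/-- The clause `C` is heavy for the large set `A`. -/
def Heavy (lam M : ℕ) (A : Finset (Fin n → Bool)) (C : Clause n w) : Prop :=
  lam ≤ A.card ∧ A.card ≤ M * (A ∩ bad C).card

/-- Every removed clause is heavy when it is removed. -/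
def Valid (F : CNF n w m) (lam M : ℕ) : List (Step n m) → Prop
  | [] => True
  | (o, S) :: l => Valid F lam M l ∧ ∀ i ∈ S, Heavy lam M (app (run F l) o) (F i)

/-- The number of removals. -/
def kills : List (Step n m) → ℕ
  | [] => 0
  | (_, S) :: l => S.card + kills l

/-- The restriction uses a set of the family `Q`. -/
def UsesOpt (Q : Finset (Finset (Fin n → Bool))) :
    Option (Finset (Fin n → Bool) × Bool) → Prop
  | none => True
  | some (Z, _) => Z ∈ Q

/-- All restrictions use sets of the family `Q`. -/
def Uses (Q : Finset (Finset (Fin n → Bool))) : List (Step n m) → Prop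
  | [] => True
  | (o, _) :: l => UsesOpt Q o ∧ Uses Q l

/-- The removed clauses. -/
def killed : List (Step n m) → Finset (Fin m)
  | [] => ∅
  | (_, S) :: l => S ∪ killed l

theorem app_subset (A : Finset (Fin n → Bool)) (o : Option (Finset (Fin n → Bool) × Bool)) :
    app A o ⊆ A := by
  rcases o with _ | ⟨Z, s⟩
  · exact Subset.rfl
  · unfold app
    dsimp only
    split_ifs
    · exact inter_subset_left
    · exact sdiff_subset

theorem run_cons (F : CNF n w m) (o : Option (Finset (Fin n → Bool) × Bool))
    (S : Finset (Fin m)) (l : List (Step n m)) :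
    run F ((o, S) :: l) = app (run F l) o \ S.biUnion (fun i => bad (F i)) := rfl

theorem valid_cons (F : CNF n w m) (lam M : ℕ) (o : Option (Finset (Fin n → Bool) × Bool))
    (S : Finset (Fin m)) (l : List (Step n m)) :
    Valid F lam M ((o, S) :: l) ↔
      Valid F lam M l ∧ ∀ i ∈ S, Heavy lam M (app (run F l) o) (F i) := Iff.rfl

theorem run_subset_cons (F : CNF n w m) (a : Step n m) (l : List (Step n m)) :
    run F (a :: l) ⊆ run F l := by
  obtain ⟨o, S⟩ := a
  rw [run_cons]
  exact sdiff_subset.trans (app_subset _ _)

theorem run_disjoint (F : CNF n w m) (l : List (Step n m)) (i : Fin m) (hi : i ∈ killed l) :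
    run F l ∩ bad (F i) = ∅ := by
  induction l with
  | nil => simp [killed] at hi
  | cons a l ih =>
    obtain ⟨o, S⟩ := a
    rcases mem_union.mp hi with h | h
    · rw [run_cons]
      ext x
      simp only [mem_inter, mem_sdiff, mem_biUnion, not_exists, not_and, notMem_empty, iff_false,
        and_imp]
      intro _ h2 h3
      exact h2 i h h3
    · have h := ih h
      refine subset_empty.mp ((inter_subset_inter_right (run_subset_cons F _ l)).trans ?_)
      rw [h]

theorem run_congr (F F' : CNF n w m) (l : List (Step n m)) (h : ∀ i ∈ killed l, F i = F' i) :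
    run F l = run F' l := by
  induction l with
  | nil => rfl
  | cons a l ih =>
    obtain ⟨o, S⟩ := a
    rw [run_cons, run_cons, ih (fun i hi => h i (mem_union_right _ hi))]
    congr 1
    apply biUnion_congr rfl
    intro i hi
    rw [h i (mem_union_left _ hi)]

theorem valid_congr (F F' : CNF n w m) (lam M : ℕ) (l : List (Step n m))
    (h : ∀ i ∈ killed l, F i = F' i) : Valid F lam M l ↔ Valid F' lam M l := by
  induction l with
  | nil => rfl
  | cons a l ih =>
    obtain ⟨o, S⟩ := a
    have h' : ∀ i ∈ killed l, F i = F' i := fun i hi => h i (mem_union_right _ hi)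
    rw [valid_cons, valid_cons, ih h', run_congr F F' l h']
    refine and_congr_right (fun _ => forall₂_congr (fun i hi => ?_))
    rw [h i (mem_union_left _ hi)]

open scoped Classical in
/-- Averaging over one clause of the formula. -/
theorem avg_one {p : ℝ} (i : Fin m) (V : CNF n w m → Prop) (h : CNF n w m → Clause n w → Prop)
    (hV : ∀ F c, V (Function.update F i c) ↔ V F)
    (hh : ∀ F c c', V F → (h (Function.update F i c) c' ↔ h F c'))
    (hp : ∀ F, V F → ((univ.filter (fun c => h F c)).card : ℝ) ≤ p * Fintype.card (Clause n w)) :
    ((univ.filter (fun F : CNF n w m => V F ∧ h F (F i))).card : ℝ)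
      ≤ p * ((univ.filter (fun F : CNF n w m => V F)).card : ℝ) := by
  rcases Nat.eq_zero_or_pos (Fintype.card (Clause n w)) with h0 | h0
  · have hem : IsEmpty (Clause n w) := Fintype.card_eq_zero_iff.mp h0
    have hem' : IsEmpty (CNF n w m) := ⟨fun F => hem.false (F i)⟩
    have e1 : (univ.filter (fun F : CNF n w m => V F ∧ h F (F i))) = ∅ := by
      ext F; exact (hem'.false F).elim
    have e2 : (univ.filter (fun F : CNF n w m => V F)) = ∅ := by
      ext F; exact (hem'.false F).elim
    rw [e1, e2]
    simp
  have h0' : (0 : ℝ) < Fintype.card (Clause n w) := by exact_mod_cast h0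
  have key : (Fintype.card (Clause n w) : ℝ) *
      ((univ.filter (fun F : CNF n w m => V F ∧ h F (F i))).card : ℝ)
      = ∑ F : CNF n w m, ∑ c : Clause n w, (if V F ∧ h F c then (1 : ℝ) else 0) := by
    rw [← Fintype.sum_prod_type']
    let e : (CNF n w m × Clause n w) → (CNF n w m × Clause n w) :=
      fun x => (Function.update x.1 i x.2, x.1 i)
    have he : Function.Involutive e := by
      intro x
      change (Function.update (Function.update x.1 i x.2) i (x.1 i),
        Function.update x.1 i x.2 i) = x
      rw [Function.update_idem, Function.update_eq_self, Function.update_self]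
    rw [← Equiv.sum_comp (Function.Involutive.toPerm e he)]
    have h1 : ∀ x : CNF n w m × Clause n w,
        (if V (Function.Involutive.toPerm e he x).1 ∧
          h (Function.Involutive.toPerm e he x).1 (Function.Involutive.toPerm e he x).2
          then (1 : ℝ) else 0)
        = if V x.1 ∧ h x.1 (x.1 i) then 1 else 0 := by
      intro x
      have h2 : (V (Function.Involutive.toPerm e he x).1 ∧
          h (Function.Involutive.toPerm e he x).1 (Function.Involutive.toPerm e he x).2)
          ↔ (V x.1 ∧ h x.1 (x.1 i)) := by
        change (V (Function.update x.1 i x.2) ∧ h (Function.update x.1 i x.2) (x.1 i))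
          ↔ (V x.1 ∧ h x.1 (x.1 i))
        rw [hV]
        constructor
        · rintro ⟨a, b⟩
          exact ⟨a, (hh x.1 x.2 (x.1 i) a).mp b⟩
        · rintro ⟨a, b⟩
          exact ⟨a, (hh x.1 x.2 (x.1 i) a).mpr b⟩
      simp only [h2]
    rw [sum_congr rfl (fun x _ => h1 x), Fintype.sum_prod_type]
    have h3 : ∀ F : CNF n w m, ∑ _c : Clause n w, (if V F ∧ h F (F i) then (1 : ℝ) else 0)
        = (Fintype.card (Clause n w) : ℝ) * (if V F ∧ h F (F i) then (1 : ℝ) else 0) := by
      intro F
      rw [sum_const, card_univ, nsmul_eq_mul]
    rw [sum_congr rfl (fun F _ => h3 F), ← mul_sum, sum_boole]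
  have h2 : ∑ F : CNF n w m, ∑ c : Clause n w, (if V F ∧ h F c then (1 : ℝ) else 0)
      ≤ ∑ F : CNF n w m, (if V F then p * Fintype.card (Clause n w) else 0) := by
    apply sum_le_sum
    intro F _
    by_cases hF : V F
    · simp only [hF, true_and, if_true]
      rw [sum_boole]
      exact hp F hF
    · simp [hF]
  rw [← key, ← sum_filter, sum_const, nsmul_eq_mul] at h2
  have h3 : (Fintype.card (Clause n w) : ℝ) *
      ((univ.filter (fun F : CNF n w m => V F ∧ h F (F i))).card : ℝ)
      ≤ (Fintype.card (Clause n w) : ℝ) *
        (p * ((univ.filter (fun F : CNF n w m => V F)).card : ℝ)) := by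
    linarith
  exact le_of_mul_le_mul_left h3 h0'

open scoped Classical in
/-- A history with many removals is rarely valid. -/
theorem prob_valid {lam M : ℕ} {p : ℝ} (hp0 : 0 ≤ p) (hlam : 0 < lam)
    (hp : ∀ A : Finset (Fin n → Bool), lam ≤ A.card →
      ((univ.filter (fun C : Clause n w => A.card ≤ M * (A ∩ bad C).card)).card : ℝ)
        ≤ p * Fintype.card (Clause n w))
    (l : List (Step n m)) :
    ((univ.filter (fun F : CNF n w m => Valid F lam M l)).card : ℝ)
      ≤ p ^ kills l * Fintype.card (CNF n w m) := by
  induction l with
  | nil =>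
    simp only [kills, pow_zero, one_mul]
    exact_mod_cast card_le_card (filter_subset _ _)
  | cons a l ih =>
    obtain ⟨o, S⟩ := a
    by_cases hdis : Disjoint S (killed l)
    · -- independent clauses
      have hupd : ∀ (F : CNF n w m) (i : Fin m) (c : Clause n w), i ∈ S → ∀ j ∈ killed l,
          Function.update F i c j = F j := by
        intro F i c hi j hj
        apply Function.update_of_ne
        rintro rfl
        exact (Finset.disjoint_left.mp hdis) hi hj
      have key : ∀ S' : Finset (Fin m), S' ⊆ S →
          ((univ.filter (fun F : CNF n w m => Valid F lam M l ∧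
            ∀ i ∈ S', Heavy lam M (app (run F l) o) (F i))).card : ℝ)
          ≤ p ^ S'.card * ((univ.filter (fun F : CNF n w m => Valid F lam M l)).card : ℝ) := by
        intro S'
        induction S' using Finset.induction_on with
        | empty => intro _; simp
        | insert i S' hi ih2 =>
          intro hsub
          have hiS : i ∈ S := hsub (mem_insert_self _ _)
          have ih2' := ih2 (fun j hj => hsub (mem_insert_of_mem hj))
          have h1 := avg_one (p := p) i
            (fun F : CNF n w m => Valid F lam M l ∧
              ∀ j ∈ S', Heavy lam M (app (run F l) o) (F j))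
            (fun F c => Heavy lam M (app (run F l) o) c)
            (by
              intro F c
              rw [valid_congr _ F lam M l (hupd F i c hiS), run_congr _ F l (hupd F i c hiS)]
              refine and_congr_right (fun _ => forall₂_congr (fun j hj => ?_))
              rw [Function.update_of_ne]
              rintro rfl
              exact hi hj)
            (by
              intro F c c' _
              rw [run_congr _ F l (hupd F i c hiS)])
            (by
              rintro F _
              by_cases hA : lam ≤ (app (run F l) o).card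
              · refine le_trans (le_of_eq ?_) (hp (app (run F l) o) hA)
                congr 2
                ext c
                simp only [mem_filter, mem_univ, true_and]
                exact ⟨fun h => h.2, fun h => ⟨hA, h⟩⟩
              · have : (univ.filter (fun c : Clause n w => Heavy lam M (app (run F l) o) c))
                    = ∅ := by
                  apply filter_eq_empty_iff.mpr
                  intro c _ h
                  exact hA h.1
                rw [this]
                simp only [card_empty, Nat.cast_zero]
                positivity)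
          have h2 : (univ.filter (fun F : CNF n w m => Valid F lam M l ∧
              ∀ j ∈ insert i S', Heavy lam M (app (run F l) o) (F j))) =
              univ.filter (fun F : CNF n w m => (Valid F lam M l ∧
              ∀ j ∈ S', Heavy lam M (app (run F l) o) (F j)) ∧
              Heavy lam M (app (run F l) o) (F i)) := by
            ext F
            simp only [mem_filter, mem_univ, true_and, mem_insert, forall_eq_or_imp]
            tauto
          rw [h2, card_insert_of_notMem hi, pow_succ]
          have h3 : ((univ.filter (fun F : CNF n w m => (Valid F lam M l ∧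
              ∀ j ∈ S', Heavy lam M (app (run F l) o) (F j)) ∧
              Heavy lam M (app (run F l) o) (F i))).card : ℝ) ≤
              p * ((univ.filter (fun F : CNF n w m => Valid F lam M l ∧
              ∀ j ∈ S', Heavy lam M (app (run F l) o) (F j))).card : ℝ) := by
            refine le_trans (le_of_eq ?_) (h1.trans (le_of_eq ?_))
            · congr!
            · congr!
          refine h3.trans ((mul_le_mul_of_nonneg_left ih2' hp0).trans (le_of_eq ?_))
          ring
      have h4 : (univ.filter (fun F : CNF n w m => Valid F lam M ((o, S) :: l))) =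
          univ.filter (fun F : CNF n w m => Valid F lam M l ∧
            ∀ i ∈ S, Heavy lam M (app (run F l) o) (F i)) := by
        ext F
        simp only [mem_filter, mem_univ, true_and]
        exact valid_cons F lam M o S l
      rw [h4]
      refine (key S Subset.rfl).trans ((mul_le_mul_of_nonneg_left ih (by positivity)).trans
        (le_of_eq ?_))
      simp only [kills]
      rw [pow_add]
      ring
    · -- an already removed clause is not heavy
      have : (univ.filter (fun F : CNF n w m => Valid F lam M ((o, S) :: l))) = ∅ := by
        apply filter_eq_empty_iff.mpr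
        intro F _ hF
        rw [valid_cons] at hF
        rw [Finset.not_disjoint_iff] at hdis
        obtain ⟨i, hi1, hi2⟩ := hdis
        obtain ⟨h1, h2⟩ := hF.2 i hi1
        have h3 : app (run F l) o ∩ bad (F i) = ∅ := by
          refine subset_empty.mp ((inter_subset_inter_right (app_subset _ _)).trans ?_)
          rw [run_disjoint F l i hi2]
        rw [h3] at h2
        simp at h2
        rw [h2] at h1
        simp at h1
        omega
      rw [this]
      simp only [card_empty, Nat.cast_zero]
      positivity

/-- The restrictions to sets of `Q` and their complements, and no restriction. -/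
def opts (Q : Finset (Finset (Fin n → Bool))) :
    Finset (Option (Finset (Fin n → Bool) × Bool)) :=
  insertNone (Q ×ˢ (univ : Finset Bool))

theorem card_opts (Q : Finset (Finset (Fin n → Bool))) : (opts Q).card = 2 * Q.card + 1 := by
  unfold opts
  rw [card_insertNone, card_product]
  simp [mul_comm]

theorem mem_opts (Q : Finset (Finset (Fin n → Bool)))
    (o : Option (Finset (Fin n → Bool) × Bool)) (h : UsesOpt Q o) : o ∈ opts Q := by
  unfold opts
  rw [mem_insertNone]
  rintro ⟨Z, s⟩ ho
  rw [Option.mem_def] at ho
  subst ho
  exact mem_product.mpr ⟨h, mem_univ _⟩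

open scoped Classical in
/-- The histories of length `R` which use sets of `Q`. -/
noncomputable def lists (m : ℕ) (Q : Finset (Finset (Fin n → Bool))) :
    ℕ → Finset (List (Step n m))
  | 0 => {[]}
  | R + 1 => ((opts Q ×ˢ (univ : Finset (Fin m)).powerset) ×ˢ lists m Q R).image
      (fun p => p.1 :: p.2)

open scoped Classical in
theorem mem_lists (Q : Finset (Finset (Fin n → Bool))) (l : List (Step n m)) (hl : Uses Q l) :
    l ∈ lists m Q l.length := by
  induction l with
  | nil => simp [lists]
  | cons a l ih =>
    obtain ⟨o, S⟩ := a
    rw [List.length_cons, lists, mem_image]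
    refine ⟨((o, S), l), ?_, rfl⟩
    rw [mem_product, mem_product]
    exact ⟨⟨mem_opts Q o hl.1, by simp⟩, ih hl.2⟩

open scoped Classical in
theorem sum_lists (m : ℕ) (Q : Finset (Finset (Fin n → Bool))) {x : ℝ} (hx : 0 ≤ x) (R : ℕ) :
    ∑ l ∈ lists m Q R, x ^ kills l ≤ ((2 * Q.card + 1) * (1 + x) ^ m) ^ R := by
  induction R with
  | zero => simp [lists, kills]
  | succ R ih =>
    rw [lists]
    refine (sum_image_le_of_nonneg (fun l _ => by positivity)).trans ?_
    rw [sum_product]
    have h1 : ∀ a ∈ opts Q ×ˢ (univ : Finset (Fin m)).powerset,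
        ∑ l ∈ lists m Q R, x ^ kills ((a : Step n m) :: l)
          ≤ x ^ a.2.card * ((2 * Q.card + 1) * (1 + x) ^ m) ^ R := by
      rintro ⟨o, S⟩ _
      have : ∀ l : List (Step n m), x ^ kills ((o, S) :: l) = x ^ S.card * x ^ kills l := by
        intro l
        simp only [kills]
        rw [pow_add]
      simp_rw [this]
      rw [← mul_sum]
      exact mul_le_mul_of_nonneg_left ih (by positivity)
    refine (sum_le_sum h1).trans ?_
    rw [← sum_mul, pow_succ, mul_comm]
    apply le_of_eq
    congr 1
    rw [sum_product]
    simp only []
    rw [sum_const, nsmul_eq_mul, card_opts]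
    congr 1
    · push_cast; ring
    · have := Finset.sum_pow_mul_eq_add_pow x 1 (univ : Finset (Fin m))
      simp only [one_pow, mul_one, card_univ, Fintype.card_fin] at this
      rw [this, add_comm]

open scoped Classical in
/-- The union bound: few formulas have a valid history with many removals. -/
theorem union_bound {lam M : ℕ} {p : ℝ} (hp0 : 0 ≤ p) (hlam : 0 < lam)
    (hp : ∀ A : Finset (Fin n → Bool), lam ≤ A.card →
      ((univ.filter (fun C : Clause n w => A.card ≤ M * (A ∩ bad C).card)).card : ℝ)
        ≤ p * Fintype.card (Clause n w))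
    (Q : Finset (Finset (Fin n → Bool))) (R H : ℕ) :
    ((univ.filter (fun F : CNF n w m => ∃ l : List (Step n m), Uses Q l ∧ l.length = R ∧
      H ≤ kills l ∧ Valid F lam M l)).card : ℝ)
      ≤ (1 / 2) ^ H * ((2 * Q.card + 1) * (1 + 2 * p) ^ m) ^ R * Fintype.card (CNF n w m) := by
  have h1 : (univ.filter (fun F : CNF n w m => ∃ l : List (Step n m), Uses Q l ∧ l.length = R ∧
      H ≤ kills l ∧ Valid F lam M l))
      ⊆ ((lists m Q R).filter (fun l => H ≤ kills l)).biUnion
          (fun l => univ.filter (fun F : CNF n w m => Valid F lam M l)) := by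
    intro F hF
    rw [mem_filter] at hF
    obtain ⟨_, l, hl, hq, hh, hv⟩ := hF
    rw [mem_biUnion]
    refine ⟨l, ?_, ?_⟩
    · rw [mem_filter]
      refine ⟨?_, hh⟩
      rw [← hq]
      exact mem_lists Q l hl
    · simp [hv]
  calc ((univ.filter (fun F : CNF n w m => ∃ l : List (Step n m), Uses Q l ∧ l.length = R ∧
      H ≤ kills l ∧ Valid F lam M l)).card : ℝ)
      ≤ ((((lists m Q R).filter (fun l => H ≤ kills l)).biUnion
          (fun l => univ.filter (fun F : CNF n w m => Valid F lam M l))).card : ℝ) := by
        exact_mod_cast card_le_card h1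
    _ ≤ ∑ l ∈ (lists m Q R).filter (fun l => H ≤ kills l),
          ((univ.filter (fun F : CNF n w m => Valid F lam M l)).card : ℝ) := by
        exact_mod_cast card_biUnion_le
    _ ≤ ∑ l ∈ (lists m Q R).filter (fun l => H ≤ kills l),
          (1 / 2) ^ H * (2 * p) ^ kills l * (Fintype.card (CNF n w m) : ℝ) := by
        apply sum_le_sum
        intro l hl
        rw [mem_filter] at hl
        refine (prob_valid (m := m) hp0 hlam hp l).trans ?_
        apply mul_le_mul_of_nonneg_right _ (by positivity)
        have h2 : p ^ kills l = (1 / 2) ^ kills l * (2 * p) ^ kills l := by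
          rw [← mul_pow]; ring
        rw [h2]
        apply mul_le_mul_of_nonneg_right _ (by positivity)
        exact pow_le_pow_of_le_one (by norm_num) (by norm_num) hl.2
    _ ≤ ∑ l ∈ lists m Q R, (1 / 2) ^ H * (2 * p) ^ kills l * (Fintype.card (CNF n w m) : ℝ) := by
        apply sum_le_sum_of_subset_of_nonneg (filter_subset _ _)
        intro l _ _
        positivity
    _ = (1 / 2) ^ H * (∑ l ∈ lists m Q R, (2 * p) ^ kills l) *
          (Fintype.card (CNF n w m) : ℝ) := by
        rw [mul_sum, sum_mul]
    _ ≤ _ := by
        apply mul_le_mul_of_nonneg_right _ (by positivity)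
        apply mul_le_mul_of_nonneg_left _ (by positivity)
        exact sum_lists m Q (by positivity) R

/-- A formula is typical if no short valid history has many removals. -/
def Typical (F : CNF n w m) (lam M : ℕ) (Q : Finset (Finset (Fin n → Bool))) (R H : ℕ) : Prop :=
  ∀ l : List (Step n m), Uses Q l → l.length ≤ R → Valid F lam M l → kills l < H

theorem exists_pad (F : CNF n w m) {lam M : ℕ} (Q : Finset (Finset (Fin n → Bool)))
    (l : List (Step n m)) (hu : Uses Q l) (hv : Valid F lam M l) (k : ℕ) :
    ∃ l' : List (Step n m), Uses Q l' ∧ Valid F lam M l' ∧ kills l' = kills l ∧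
      l'.length = l.length + k := by
  induction k with
  | zero => exact ⟨l, hu, hv, rfl, rfl⟩
  | succ k ih =>
    obtain ⟨l', h1, h2, h3, h4⟩ := ih
    refine ⟨(none, ∅) :: l', ⟨trivial, h1⟩, ⟨h2, by simp⟩, ?_, ?_⟩
    · simp only [kills, card_empty]; omega
    · rw [List.length_cons]; omega

open scoped Classical in
theorem card_not_typical {lam M : ℕ} {p : ℝ} (hp0 : 0 ≤ p) (hlam : 0 < lam)
    (hp : ∀ A : Finset (Fin n → Bool), lam ≤ A.card →
      ((univ.filter (fun C : Clause n w => A.card ≤ M * (A ∩ bad C).card)).card : ℝ)
        ≤ p * Fintype.card (Clause n w))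
    (Q : Finset (Finset (Fin n → Bool))) (R H : ℕ) :
    ((univ.filter (fun F : CNF n w m => ¬ Typical F lam M Q R H)).card : ℝ)
      ≤ (1 / 2) ^ H * ((2 * Q.card + 1) * (1 + 2 * p) ^ m) ^ R * Fintype.card (CNF n w m) := by
  refine le_trans ?_ (union_bound hp0 hlam hp Q R H)
  have : (univ.filter (fun F : CNF n w m => ¬ Typical F lam M Q R H))
      ⊆ univ.filter (fun F : CNF n w m => ∃ l : List (Step n m), Uses Q l ∧ l.length = R ∧
      H ≤ kills l ∧ Valid F lam M l) := by
    intro F hF
    rw [mem_filter] at hF ⊢
    refine ⟨mem_univ _, ?_⟩
    have h1 := hF.2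
    unfold Typical at h1
    push Not at h1
    obtain ⟨l, hu, hq, hv, hk⟩ := h1
    obtain ⟨l'', b1, b2, b3, b4⟩ := exists_pad F Q l hu hv (R - l.length)
    exact ⟨l'', b1, by omega, by omega, b2⟩
  exact_mod_cast card_le_card this

/-- No clause of the formula is heavy for `A`. -/
def Clean (F : CNF n w m) (M : ℕ) (A : Finset (Fin n → Bool)) : Prop :=
  ∀ i, M * (A ∩ bad (F i)).card < 2 * A.card

open scoped Classical in
/-- The clauses which are heavy for `A`. -/
noncomputable def heavySet (F : CNF n w m) (lam M : ℕ) (A : Finset (Fin n → Bool)) :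
    Finset (Fin m) :=
  univ.filter (fun i => Heavy lam M A (F i))

theorem mem_heavySet (F : CNF n w m) (lam M : ℕ) (A : Finset (Fin n → Bool)) (i : Fin m) :
    i ∈ heavySet F lam M A ↔ Heavy lam M A (F i) := by
  simp [heavySet]

/-- Removing all heavy clauses leaves a clean set, if at least half of the set is left. -/
theorem clean_of_half (F : CNF n w m) {lam M : ℕ} (A : Finset (Fin n → Bool))
    (hA : lam ≤ A.card)
    (h : A.card ≤ 2 * (A \ (heavySet F lam M A).biUnion (fun i => bad (F i))).card)
    (hpos : 0 < (A \ (heavySet F lam M A).biUnion (fun i => bad (F i))).card) :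
    Clean F M (A \ (heavySet F lam M A).biUnion (fun i => bad (F i))) := by
  intro i
  by_cases hi : i ∈ heavySet F lam M A
  · have : (A \ (heavySet F lam M A).biUnion (fun i => bad (F i))) ∩ bad (F i) = ∅ := by
      ext x
      simp only [mem_inter, mem_sdiff, mem_biUnion, not_exists, not_and, notMem_empty, iff_false,
        and_imp]
      intro _ h2 h3
      exact h2 i hi h3
    rw [this, card_empty, mul_zero]
    omega
  · rw [mem_heavySet] at hi
    unfold Heavy at hi
    push Not at hi
    have h1 := hi hA
    have h2 : ((A \ (heavySet F lam M A).biUnion (fun i => bad (F i))) ∩ bad (F i)).card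
        ≤ (A ∩ bad (F i)).card := card_le_card (inter_subset_inter_right sdiff_subset)
    calc M * ((A \ (heavySet F lam M A).biUnion (fun i => bad (F i))) ∩ bad (F i)).card
        ≤ M * (A ∩ bad (F i)).card := Nat.mul_le_mul_left _ h2
      _ < A.card := h1
      _ ≤ _ := h

/-- Removing heavy clauses in rounds until the set is clean or small. -/
theorem exists_clean (F : CNF n w m) {lam M : ℕ} (hlam : 0 < lam) (j : ℕ) :
    ∀ (l : List (Step n m)), Valid F lam M l → (run F l).card < 2 ^ j →
    ∃ ks : List (Finset (Fin m)), ks.length ≤ j ∧
      Valid F lam M (ks.map (fun S => ((none, S) : Step n m)) ++ l) ∧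
      ((run F (ks.map (fun S => ((none, S) : Step n m)) ++ l)).card < lam ∨
        Clean F M (run F (ks.map (fun S => ((none, S) : Step n m)) ++ l))) := by
  induction j with
  | zero =>
    intro l hv hN
    exact ⟨[], by simp, hv, Or.inl (by simp only [List.map_nil, List.nil_append]; omega)⟩
  | succ j ih =>
    intro l hv hN
    by_cases hs : (run F l).card < lam
    · exact ⟨[], by simp, hv, Or.inl hs⟩
    push Not at hs
    set S := heavySet F lam M (run F l) with hS
    have hv' : Valid F lam M ((none, S) :: l) := by
      refine ⟨hv, fun i hi => ?_⟩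
      rw [hS, mem_heavySet] at hi
      exact hi
    have hrun : run F ((none, S) :: l) = run F l \ S.biUnion (fun i => bad (F i)) := rfl
    by_cases hhalf : (run F l).card ≤ 2 * (run F ((none, S) :: l)).card
    · refine ⟨[S], by simp, hv', Or.inr ?_⟩
      change Clean F M (run F ((none, S) :: l))
      rw [hrun]
      rw [hrun] at hhalf
      have hpos : 0 < (run F l \ S.biUnion (fun i => bad (F i))).card := by omega
      exact clean_of_half F (run F l) hs hhalf hpos
    · push Not at hhalf
      have hlt : (run F ((none, S) :: l)).card < 2 ^ j := by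
        rw [pow_succ] at hN
        omega
      obtain ⟨ks, h0, h1, h2⟩ := ih _ hv' hlt
      refine ⟨ks ++ [S], ?_, ?_, ?_⟩
      · rw [List.length_append]; simp only [List.length_cons, List.length_nil]; omega
      · simpa using h1
      · simpa using h2

theorem uses_kill_append (Q : Finset (Finset (Fin n → Bool))) (ks : List (Finset (Fin m)))
    (l : List (Step n m)) (h : Uses Q l) :
    Uses Q (ks.map (fun S => ((none, S) : Step n m)) ++ l) := by
  induction ks with
  | nil => exact h
  | cons i ks ih => exact ⟨trivial, ih⟩

theorem run_kill_append_subset (F : CNF n w m) (ks : List (Finset (Fin m)))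
    (l : List (Step n m)) :
    run F (ks.map (fun S => ((none, S) : Step n m)) ++ l) ⊆ run F l := by
  induction ks with
  | nil => exact Subset.rfl
  | cons i ks ih => exact (run_subset_cons F _ _).trans ih

/-- A clean set loses little when the assignments that falsify few clauses are removed. -/
theorem card_covered {M : ℕ} (F : CNF n w m) (A : Finset (Fin n → Bool)) (hA : Clean F M A)
    (G : Finset (Fin m)) (B : Finset (Fin n → Bool)) (hBA : B ⊆ A)
    (hB : ∀ x ∈ B, ∃ i ∈ G, x ∈ bad (F i)) : M * B.card ≤ 2 * G.card * A.card := by
  have h1 : B ⊆ G.biUnion (fun i => A ∩ bad (F i)) := by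
    intro x hx
    obtain ⟨i, hi, hxi⟩ := hB x hx
    rw [mem_biUnion]
    exact ⟨i, hi, mem_inter.mpr ⟨hBA hx, hxi⟩⟩
  calc M * B.card ≤ M * ∑ i ∈ G, (A ∩ bad (F i)).card :=
        Nat.mul_le_mul_left _ ((card_le_card h1).trans card_biUnion_le)
    _ = ∑ i ∈ G, M * (A ∩ bad (F i)).card := by rw [mul_sum]
    _ ≤ ∑ _i ∈ G, 2 * A.card := sum_le_sum (fun i _ => (hA i).le)
    _ = G.card * (2 * A.card) := by rw [sum_const, smul_eq_mul]
    _ = _ := by ring

/-- The removals cost a clean set containing the current one only little. -/
theorem card_lost (F : CNF n w m) {M : ℕ} (A : Finset (Fin n → Bool)) (hA : Clean F M A)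
    (ks : List (Finset (Fin m))) (l : List (Step n m)) :
    M * ((A ∩ run F l) \ run F (ks.map (fun S => ((none, S) : Step n m)) ++ l)).card
      + 2 * kills l * A.card
      ≤ 2 * kills (ks.map (fun S => ((none, S) : Step n m)) ++ l) * A.card := by
  induction ks with
  | nil => simp
  | cons S ks ih =>
    have h1 : (A ∩ run F l) \ run F ((S :: ks).map (fun S => ((none, S) : Step n m)) ++ l)
        ⊆ ((A ∩ run F l) \ run F (ks.map (fun S => ((none, S) : Step n m)) ++ l)) ∪
          (A ∩ S.biUnion (fun i => bad (F i))) := by
      intro x hx
      have h2 : run F ((S :: ks).map (fun S => ((none, S) : Step n m)) ++ l)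
          = run F (ks.map (fun S => ((none, S) : Step n m)) ++ l) \
            S.biUnion (fun i => bad (F i)) := rfl
      rw [h2] at hx
      simp only [mem_sdiff, mem_inter, mem_union] at hx ⊢
      tauto
    have h2 := card_covered F A hA S (A ∩ S.biUnion (fun i => bad (F i))) inter_subset_left
      (by
        intro x hx
        rw [mem_inter, mem_biUnion] at hx
        exact hx.2)
    have h3 : kills ((S :: ks).map (fun S => ((none, S) : Step n m)) ++ l)
        = S.card + kills (ks.map (fun S => ((none, S) : Step n m)) ++ l) := rfl
    rw [h3]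
    calc M * ((A ∩ run F l) \
          run F ((S :: ks).map (fun S => ((none, S) : Step n m)) ++ l)).card
          + 2 * kills l * A.card
        ≤ M * (((A ∩ run F l) \ run F (ks.map (fun S => ((none, S) : Step n m)) ++ l)).card +
            (A ∩ S.biUnion (fun i => bad (F i))).card) + 2 * kills l * A.card :=
          Nat.add_le_add_right (Nat.mul_le_mul_left _
            ((card_le_card h1).trans (card_union_le _ _))) _
      _ = (M * ((A ∩ run F l) \ run F (ks.map (fun S => ((none, S) : Step n m)) ++ l)).card
            + 2 * kills l * A.card) + M * (A ∩ S.biUnion (fun i => bad (F i))).card := by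
          ring
      _ ≤ 2 * kills (ks.map (fun S => ((none, S) : Step n m)) ++ l) * A.card +
            2 * S.card * A.card := Nat.add_le_add ih h2
      _ = _ := by ring

end Pool.Agent.MP_e81270_lc_h78
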