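import Pool.Agent.Lib.MP_e81270_lc_h78.Count

/-!
# The choice of the parameters and the main theorems
-/

set_option autoImplicit false

namespace Pool.Agent.MP_e81270_lc_h78

open Finset

theorem sq_le_two_pow (k : ℕ) (hk : 4 ≤ k) : k ^ 2 ≤ 2 ^ k := by
  induction k, hk using Nat.le_induction with
  | base => norm_num
  | succ k hk ih =>
    rw [pow_succ 2 k]
    nlinarith

theorem log_small (C : ℕ) : ∃ n₀, ∀ n ≥ n₀, C * (Nat.log 2 n + 1) ≤ n := by
  refine ⟨2 ^ (2 * C + 4), fun n hn => ?_⟩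
  have hn0 : n ≠ 0 := by
    rintro rfl
    have : 0 < 2 ^ (2 * C + 4) := by positivity
    omega
  have h1 : 2 * C + 4 ≤ Nat.log 2 n := Nat.le_log_of_pow_le (by norm_num) hn
  have h2 : 2 ^ Nat.log 2 n ≤ n := Nat.pow_log_le_self 2 hn0
  have h3 := sq_le_two_pow (Nat.log 2 n) (by omega)
  set k := Nat.log 2 n
  nlinarith

/-- The numerical facts about the parameters. -/
structure Params (K n w l a M H C : ℕ) (β B : ℝ) : Prop where
  hn : n < 2 ^ l
  hl : 24 ≤ l
  hn2 : 2 ≤ n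
  hw : w = C * l
  hM : M = 2 ^ ((K + 2) * l + 11)
  hH : H = 2 ^ ((K + 1) * l + 5)
  hβ0 : 0 < β
  hβ1 : β ^ C ≤ (1 / 2) ^ (K + 6)
  hC : K + 7 ≤ C
  hB0 : 0 ≤ B
  hB : ∀ x : Fin n → Bool,
      ((univ.filter (fun y : Fin n → Bool => β * n < agree x y)).card : ℝ) ≤ B
  hBa : B ≤ β ^ w * 2 ^ a

namespace Params

variable {K n w l a M H C : ℕ} {β B : ℝ}

theorem nK (p : Params K n w l a M H C β B) : n ^ K ≤ 2 ^ (K * l) := by
  calc n ^ K ≤ (2 ^ l) ^ K := Nat.pow_le_pow_left p.hn.le _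
    _ = _ := by rw [← pow_mul, mul_comm]

theorem GM (p : Params K n w l a M H C β B) : 2 * n ^ K < M := by
  rw [p.hM]
  have h1 := p.nK
  have h2 : 2 * 2 ^ (K * l) < 2 ^ ((K + 2) * l + 11) := by
    rw [← pow_succ']
    apply Nat.pow_lt_pow_right (by norm_num)
    nlinarith
  omega

theorem Mw (p : Params K n w l a M H C β B) : M < 2 ^ w := by
  rw [p.hM, p.hw]
  apply Nat.pow_lt_pow_right (by norm_num)
  have := p.hl
  have h2 := p.hC
  nlinarith

theorem nKH (p : Params K n w l a M H C β B) : n ^ K ≤ H := by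
  rw [p.hH]
  refine p.nK.trans (Nat.pow_le_pow_right (by norm_num) ?_)
  nlinarith

theorem MH (p : Params K n w l a M H C β B) :
    4 * (n * (8 * H + 2 * n ^ K) + 2 * H) ≤ M := by
  have h1 := p.nKH
  have h3 := p.hn2
  have h4 : n * (8 * H + 2 * n ^ K) + 2 * H ≤ 12 * (n * H) := by
    have h5 : n * (8 * H + 2 * n ^ K) ≤ n * (10 * H) := Nat.mul_le_mul_left _ (by omega)
    have h6 : n * (10 * H) = 10 * (n * H) := by ring
    have h7 : H ≤ n * H := Nat.le_mul_of_pos_left _ (by omega)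
    omega
  calc 4 * (n * (8 * H + 2 * n ^ K) + 2 * H) ≤ 4 * (12 * (n * H)) := Nat.mul_le_mul_left _ h4
    _ ≤ 2 ^ 6 * (n * H) := by
        have := Nat.zero_le (n * H)
        omega
    _ ≤ 2 ^ 6 * (2 ^ l * 2 ^ ((K + 1) * l + 5)) := by
        rw [p.hH]
        apply Nat.mul_le_mul (by norm_num)
        exact Nat.mul_le_mul_right _ p.hn.le
    _ = 2 ^ (6 + (l + ((K + 1) * l + 5))) := by rw [pow_add 2 6, pow_add 2 l]
    _ = M := by
        rw [p.hM]
        congr 1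
        ring

theorem H_large (p : Params K n w l a M H C β B) :
    (n ^ K + 2 + 3 * 2 ^ (K * l)) * (3 * n + 3) + n + 1 ≤ H := by
  have h2 := p.nK
  have h4 := p.hn
  have h6 : 1 ≤ 2 ^ (K * l) := Nat.one_le_two_pow
  have h7 : (n ^ K + 2 + 3 * 2 ^ (K * l)) * (3 * n + 3) + n + 1
      ≤ 32 * (2 ^ (K * l) * 2 ^ l) := by
    have a1 : (n ^ K + 2 + 3 * 2 ^ (K * l)) * (3 * n + 3) ≤ (6 * 2 ^ (K * l)) * (3 * 2 ^ l) :=
      Nat.mul_le_mul (by omega) (by omega)
    have a2 : 2 ^ l ≤ 2 ^ (K * l) * 2 ^ l := Nat.le_mul_of_pos_left _ (by positivity)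
    have a3 : (6 * 2 ^ (K * l)) * (3 * 2 ^ l) = 18 * (2 ^ (K * l) * 2 ^ l) := by ring
    omega
  refine h7.trans (le_of_eq ?_)
  rw [p.hH]
  have : (K + 1) * l + 5 = 5 + (K * l + l) := by ring
  rw [this, pow_add, pow_add]
  norm_num

/-- The probability that a clause is heavy. -/
noncomputable def pr (w M : ℕ) (β : ℝ) : ℝ := (M : ℝ) ^ 2 * (2 * β ^ w) / 2 ^ w

theorem pr_small (p : Params K n w l a M H C β B) :
    ((2 * n * 2 ^ w : ℕ) : ℝ) * pr w M β ≤ ((2 ^ (K * l) : ℕ) : ℝ) := by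
  unfold pr
  have h4 : (0 : ℝ) < 2 ^ w := by positivity
  have h5 : ((2 * n * 2 ^ w : ℕ) : ℝ) * ((M : ℝ) ^ 2 * (2 * β ^ w) / 2 ^ w)
      = 4 * n * M ^ 2 * β ^ w := by
    push_cast
    field_simp
    ring
  rw [h5]
  have h6 : β ^ w ≤ (1 / 2) ^ ((K + 6) * l) := by
    rw [p.hw, pow_mul, pow_mul]
    exact pow_le_pow_left₀ (pow_nonneg p.hβ0.le _) p.hβ1 _
  have h7 : (4 * n * M ^ 2 : ℝ) ≤ 2 ^ (2 + (l + ((K + 2) * l + 11) * 2)) := by
    have : 4 * n * M ^ 2 ≤ 2 ^ (2 + (l + ((K + 2) * l + 11) * 2)) := by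
      calc 4 * n * M ^ 2 = 4 * (n * M ^ 2) := by ring
        _ ≤ 4 * (2 ^ l * M ^ 2) := Nat.mul_le_mul_left _ (Nat.mul_le_mul_right _ p.hn.le)
        _ = _ := by
          rw [p.hM, ← pow_mul, pow_add, pow_add]
          norm_num
    exact_mod_cast this
  calc (4 * n * M ^ 2 : ℝ) * β ^ w
      ≤ 2 ^ (2 + (l + ((K + 2) * l + 11) * 2)) * (1 / 2) ^ ((K + 6) * l) := by
        apply mul_le_mul h7 h6 (pow_nonneg p.hβ0.le _) (by positivity)
    _ ≤ 2 ^ (K * l + (K + 6) * l) * (1 / 2) ^ ((K + 6) * l) := by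
        apply mul_le_mul_of_nonneg_right _ (by positivity)
        apply pow_le_pow_right₀ (by norm_num)
        have := p.hl
        nlinarith
    _ = ((2 ^ (K * l) : ℕ) : ℝ) := by
        rw [pow_add, mul_assoc, ← mul_pow]
        push_cast
        norm_num

theorem heavy (p : Params K n w l a M H C β B) (A : Finset (Fin n → Bool))
    (hA : 2 ^ a ≤ A.card) :
    (M : ℝ) ^ 2 * (β ^ w + B / A.card) ≤ pr w M β * 2 ^ w := by
  have hA' : (2 : ℝ) ^ a ≤ A.card := by exact_mod_cast hA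
  have hpos : (0 : ℝ) < 2 ^ a := by positivity
  have h3 : B / A.card ≤ β ^ w := by
    rw [div_le_iff₀ (lt_of_lt_of_le hpos hA')]
    exact p.hBa.trans (mul_le_mul_of_nonneg_left hA' (pow_nonneg p.hβ0.le _))
  have h4 : pr w M β * 2 ^ w = (M : ℝ) ^ 2 * (2 * β ^ w) := by
    unfold pr
    field_simp
  rw [h4]
  apply mul_le_mul_of_nonneg_left _ (by positivity)
  linarith

end Params

theorem sat_small {n w : ℕ} (hn : 2 ≤ n) :
    (2 : ℝ) ^ n * (1 - 1 / 2 ^ w) ^ (2 * n * 2 ^ w) ≤ (1 / 2) ^ (n + 1) := by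
  have h1 : (0 : ℝ) ≤ 1 - 1 / 2 ^ w := by
    rw [sub_nonneg, div_le_one (by positivity)]
    exact one_le_pow₀ (by norm_num)
  have h2 : (1 - 1 / 2 ^ w : ℝ) ^ (2 * n * 2 ^ w) ≤ Real.exp (-(2 * n)) := by
    calc (1 - 1 / 2 ^ w : ℝ) ^ (2 * n * 2 ^ w) ≤ (Real.exp (-(1 / 2 ^ w))) ^ (2 * n * 2 ^ w) := by
          apply pow_le_pow_left₀ h1
          have := Real.add_one_le_exp (-(1 / 2 ^ w : ℝ))
          linarith
      _ = _ := by
          rw [← Real.exp_nat_mul]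
          congr 1
          push_cast
          field_simp
  have h3 : (2 : ℝ) ^ n = Real.exp (n * Real.log 2) := by
    rw [Real.exp_nat_mul, Real.exp_log (by norm_num)]
  have h4 : (1 / 2 : ℝ) ^ (n + 1) = Real.exp (-((n + 1 : ℕ) * Real.log 2)) := by
    rw [Real.exp_neg, Real.exp_nat_mul, Real.exp_log (by norm_num)]
    rw [one_div, inv_pow]
  rw [h4]
  calc (2 : ℝ) ^ n * (1 - 1 / 2 ^ w) ^ (2 * n * 2 ^ w) ≤ 2 ^ n * Real.exp (-(2 * n)) :=
        mul_le_mul_of_nonneg_left h2 (by positivity)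
    _ = Real.exp (n * Real.log 2 + (-(2 * n))) := by rw [h3, Real.exp_add]
    _ ≤ _ := by
        apply Real.exp_le_exp.mpr
        push_cast
        have h5 := Real.log_two_lt_d9
        have h6 : (2 : ℝ) ≤ n := by exact_mod_cast hn
        nlinarith

open scoped Classical in
/-- Almost all formulas are unsatisfiable and typical. -/
theorem prob_core {K n w l a M H C m : ℕ} {β B : ℝ} (p : Params K n w l a M H C β B)
    (hm : m = 2 * n * 2 ^ w) (Q : Finset (Finset (Fin n → Bool)))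
    (hQc : Q.card ≤ 2 ^ (n ^ K)) :
    ((univ.filter (fun F : CNF n w m =>
      ¬ (Unsat F ∧ Typical F (2 ^ a) M Q (3 * n + 3) H))).card : ℝ)
      ≤ (1 / 2) ^ n * Fintype.card (CNF n w m) := by
  have hlam0 : 0 < 2 ^ a := by positivity
  have hp0 : 0 ≤ Params.pr w M β := by
    unfold Params.pr
    have := pow_nonneg p.hβ0.le w
    positivity
  have hp : ∀ A : Finset (Fin n → Bool), 2 ^ a ≤ A.card →
      ((univ.filter (fun C : Clause n w => A.card ≤ M * (A ∩ bad C).card)).card : ℝ)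
        ≤ Params.pr w M β * Fintype.card (Clause n w) := by
    intro A hA
    have h := heavy_card p.hβ0.le p.hB0 p.hB A (lt_of_lt_of_le hlam0 hA) (p.heavy A hA)
    convert h
  have h1 := card_not_typical (m := m) hp0 hlam0 hp Q (3 * n + 3) H
  have h2 : (1 / 2 : ℝ) ^ H * ((2 * Q.card + 1) * (1 + 2 * Params.pr w M β) ^ m) ^ (3 * n + 3)
      ≤ (1 / 2) ^ (n + 1) := by
    have a1 : (2 * Q.card + 1 : ℝ) ≤ 2 ^ (n ^ K + 2) := by
      have h3 : (Q.card : ℝ) ≤ 2 ^ (n ^ K) := by exact_mod_cast hQc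
      have h4 : (1 : ℝ) ≤ 2 ^ (n ^ K) := one_le_pow₀ (by norm_num)
      rw [pow_add]
      linarith
    have a2 : (1 + 2 * Params.pr w M β) ^ m ≤ (2 : ℝ) ^ (3 * 2 ^ (K * l)) := by
      have h3 : (1 + 2 * Params.pr w M β) ^ m ≤ Real.exp (m * (2 * Params.pr w M β)) := by
        rw [Real.exp_nat_mul]
        apply pow_le_pow_left₀ (by positivity)
        rw [add_comm]
        exact Real.add_one_le_exp _
      have h4 : (m : ℝ) * Params.pr w M β ≤ ((2 ^ (K * l) : ℕ) : ℝ) := by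
        rw [hm]
        exact p.pr_small
      have h5 : Real.exp (m * (2 * Params.pr w M β)) ≤ Real.exp (((2 ^ (K * l) : ℕ) : ℝ) * 2) := by
        apply Real.exp_le_exp.mpr
        linarith
      have h6 : Real.exp (((2 ^ (K * l) : ℕ) : ℝ) * 2) ≤ (2 : ℝ) ^ (3 * 2 ^ (K * l)) := by
        rw [Real.exp_nat_mul, pow_mul (2 : ℝ) 3]
        apply pow_le_pow_left₀ (Real.exp_pos _).le
        have h7 := Real.exp_one_lt_d9
        have h8 : Real.exp 2 = Real.exp 1 * Real.exp 1 := by rw [← Real.exp_add]; norm_num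
        rw [h8]
        have h9 := Real.exp_pos 1
        nlinarith
      exact h3.trans (h5.trans h6)
    have a3 : ((2 * Q.card + 1 : ℝ) * (1 + 2 * Params.pr w M β) ^ m) ^ (3 * n + 3)
        ≤ 2 ^ ((n ^ K + 2 + 3 * 2 ^ (K * l)) * (3 * n + 3)) := by
      rw [pow_mul (2 : ℝ)]
      apply pow_le_pow_left₀ (by positivity)
      rw [pow_add (2 : ℝ) (n ^ K + 2)]
      exact mul_le_mul a1 a2 (by positivity) (by positivity)
    calc _ ≤ (1 / 2 : ℝ) ^ ((n ^ K + 2 + 3 * 2 ^ (K * l)) * (3 * n + 3) + (n + 1)) *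
            2 ^ ((n ^ K + 2 + 3 * 2 ^ (K * l)) * (3 * n + 3)) := by
          apply mul_le_mul _ a3 (by positivity) (by positivity)
          apply pow_le_pow_of_le_one (by norm_num) (by norm_num)
          have := p.H_large
          omega
      _ = _ := by
          rw [pow_add (1 / 2 : ℝ), mul_comm, ← mul_assoc, ← mul_pow]
          norm_num
  have h3 := card_sat n w m
  have h4 : (2 : ℝ) ^ n * (1 - 1 / 2 ^ w) ^ m ≤ (1 / 2) ^ (n + 1) := by
    rw [hm]
    exact sat_small p.hn2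
  have hsub : (univ.filter (fun F : CNF n w m =>
      ¬ (Unsat F ∧ Typical F (2 ^ a) M Q (3 * n + 3) H))) ⊆
      (univ.filter (fun F : CNF n w m => ¬ Unsat F)) ∪
      (univ.filter (fun F : CNF n w m => ¬ Typical F (2 ^ a) M Q (3 * n + 3) H)) := by
    intro F hF
    rw [mem_union, mem_filter, mem_filter]
    rw [mem_filter] at hF
    tauto
  have h5 : ((univ.filter (fun F : CNF n w m =>
      ¬ (Unsat F ∧ Typical F (2 ^ a) M Q (3 * n + 3) H))).card : ℝ)
      ≤ ((univ.filter (fun F : CNF n w m => ¬ Unsat F)).card : ℝ) +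
        ((univ.filter (fun F : CNF n w m => ¬ Typical F (2 ^ a) M Q (3 * n + 3) H)).card : ℝ) := by
    exact_mod_cast (card_le_card hsub).trans (card_union_le _ _)
  have hc : (0 : ℝ) ≤ Fintype.card (CNF n w m) := by positivity
  refine h5.trans ?_
  calc _ ≤ (1 / 2 : ℝ) ^ (n + 1) * Fintype.card (CNF n w m) +
        (1 / 2) ^ (n + 1) * Fintype.card (CNF n w m) := by
        apply add_le_add
        · exact h3.trans (mul_le_mul_of_nonneg_right h4 hc)
        · exact h1.trans (mul_le_mul_of_nonneg_right h2 hc)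
    _ = _ := by
        rw [pow_succ]; ring

/-- The final computation. -/
theorem final_bound {n a L D b : ℕ} {e δ : ℝ} (hδ0 : 0 < δ)
    (hδ1 : δ ≤ 1 / 3)
    (ha : (a : ℝ) ≤ e * n + 1) (hn : 4 ≤ δ * ((1 - e) * n)) (hL : 2 / δ ≤ Real.logb 2 L)
    (hb : (b : ℝ) ≤ 2 + Real.logb 2 L) (hD : ((n : ℝ) - a - 3) ^ 2 ≤ 2 * b * D) :
    (1 - 3 * δ) * (1 - e) ^ 2 / 2 * (n : ℝ) ^ 2 ≤ D * Real.logb 2 L := by
  set y := Real.logb 2 L with hy
  have hn0 : 0 < (1 - e) * (n : ℝ) := by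
    by_contra h
    push Not at h
    nlinarith
  have h1 : (1 - δ) * ((1 - e) * n) ≤ (n : ℝ) - a - 3 := by nlinarith
  have h2 : ((1 - δ) * ((1 - e) * n)) ^ 2 ≤ ((n : ℝ) - a - 3) ^ 2 := by
    apply pow_le_pow_left₀ _ h1
    apply mul_nonneg _ hn0.le
    linarith
  have hD0 : (0 : ℝ) ≤ D := by positivity
  have h3 : (b : ℝ) ≤ (1 + δ) * y := by
    have : 2 ≤ δ * y := by
      rw [div_le_iff₀ hδ0] at hL
      linarith
    nlinarith
  have h4 : 2 * (b : ℝ) * D ≤ 2 * ((1 + δ) * y) * D := by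
    apply mul_le_mul_of_nonneg_right _ hD0
    linarith
  have h5 : (1 - δ) ^ 2 * ((1 - e) * (n : ℝ)) ^ 2 ≤ 2 * (1 + δ) * (D * y) := by
    calc (1 - δ) ^ 2 * ((1 - e) * (n : ℝ)) ^ 2 = ((1 - δ) * ((1 - e) * n)) ^ 2 := by ring
      _ ≤ 2 * ((1 + δ) * y) * D := h2.trans (hD.trans h4)
      _ = _ := by ring
  have h6 : (1 + δ) * (1 - 3 * δ) * ((1 - e) * (n : ℝ)) ^ 2
      ≤ (1 - δ) ^ 2 * ((1 - e) * (n : ℝ)) ^ 2 := by
    apply mul_le_mul_of_nonneg_right _ (sq_nonneg _)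
    nlinarith
  have h7 : (1 + δ) * ((1 - 3 * δ) * (1 - e) ^ 2 / 2 * (n : ℝ) ^ 2) ≤ (1 + δ) * (D * y) := by
    nlinarith
  exact le_of_mul_le_mul_left h7 (by linarith)

/-- The depth bound for a typical formula. -/
theorem typical_bound {K n w l a M H C m N : ℕ} {β B e δ : ℝ} (p : Params K n w l a M H C β B)
    (Q : Finset (Finset (Fin n → Bool))) (F : CNF n w m)
    (hF : Typical F (2 ^ a) M Q (3 * n + 3) H)
    (hδ0 : 0 < δ) (hδ1 : δ ≤ 1 / 3)
    (ha : (a : ℝ) ≤ e * n + 1) (hn : 4 ≤ δ * ((1 - e) * n))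
    (hN : 2 / δ ≤ Real.logb 2 N) (hN1 : 1 ≤ N) (hNn : (2 * N) ^ N * 2 ^ (a + 4) ≤ 2 ^ n)
    {L D : ℕ} (R : AbsRef F Q (n ^ K) L D) :
    (1 - 3 * δ) * (1 - e) ^ 2 / 2 * (n : ℝ) ^ 2 ≤ D * Real.logb 2 L := by
  have hlam0 : 0 < 2 ^ a := by positivity
  have hMH := p.MH
  have hn2 := p.hn2
  have hGM := p.GM
  have hH1 : 2 * H ≤ n * (8 * H + 2 * n ^ K) + 2 * H := Nat.le_add_left _ _
  obtain ⟨r, hrD, hr⟩ := root_large hlam0 hF p.Mw card_bad R (by omega) (by omega) (by omega)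
  have hLpos : 0 < L := lt_of_le_of_lt (Nat.zero_le _) r.2
  -- there are many lines
  have hNL : N ≤ L := by
    by_contra hcon
    push Not at hcon
    have h1 : (2 * L) ^ L * (2 ^ 3 * 2 ^ a) ≤ (U F M hlam0 (R.Z r)).card := by
      have h2 : (2 * L) ^ L ≤ (2 * N) ^ N :=
        (Nat.pow_le_pow_left (by omega) _).trans (Nat.pow_le_pow_right (by omega) hcon.le)
      have h3 : 2 * ((2 * L) ^ L * (2 ^ 3 * 2 ^ a)) ≤ 2 * (U F M hlam0 (R.Z r)).card := by
        calc 2 * ((2 * L) ^ L * (2 ^ 3 * 2 ^ a)) = (2 * L) ^ L * 2 ^ (a + 4) := by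
              rw [pow_add]; ring
          _ ≤ (2 * N) ^ N * 2 ^ (a + 4) := Nat.mul_le_mul_right _ h2
          _ ≤ 2 ^ n := hNn
          _ ≤ _ := hr
      omega
    have hM1 : 4 * (1 * (8 * H + 2 * n ^ K) + 2 * H) ≤ M := by
      refine le_trans ?_ hMH
      apply Nat.mul_le_mul_left
      exact Nat.add_le_add_right (Nat.mul_le_mul_right _ (by omega)) _
    have h2 := many_below hlam0 hF hGM R (by omega) hM1 L r h1
    have h3 : (univ.filter (fun s => R.level s < R.level r)) ⊂ (univ : Finset (Fin L)) := by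
      rw [ssubset_univ_iff]
      intro h
      have := mem_univ r
      rw [← h] at this
      simp at this
    have h4 := card_lt_card h3
    rw [card_univ, Fintype.card_fin] at h4
    omega
  have hLr : (1 : ℝ) ≤ L := by exact_mod_cast (show 1 ≤ L by omega)
  have hNr : (0 : ℝ) < N := by exact_mod_cast (show 0 < N by omega)
  have hyL : 2 / δ ≤ Real.logb 2 L := by
    refine hN.trans ?_
    apply Real.logb_le_logb_of_le (by norm_num) hNr
    exact_mod_cast hNL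
  have hy0 : 0 ≤ Real.logb 2 L := Real.logb_nonneg (by norm_num) hLr
  set y := Real.logb 2 L with hy
  set b := ⌈1 + y⌉₊ with hb
  have hb1 : (b : ℝ) ≤ 2 + y := by
    have := Nat.ceil_lt_add_one (a := 1 + y) (by linarith)
    rw [← hb] at this
    linarith
  have hb2 : 2 * L ≤ 2 ^ b := by
    have h1 : ((2 * L : ℕ) : ℝ) ≤ (2 : ℝ) ^ (b : ℝ) := by
      have e1 : ((2 * L : ℕ) : ℝ) = (2 : ℝ) ^ (1 + y) := by
        rw [Real.rpow_add (by norm_num), Real.rpow_one, hy, Real.rpow_logb (by norm_num)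
          (by norm_num) (by linarith)]
        push_cast; ring
      rw [e1]
      exact Real.rpow_le_rpow_of_exponent_le (by norm_num) (Nat.le_ceil _)
    rw [Real.rpow_natCast] at h1
    exact_mod_cast h1
  refine final_bound hδ0 hδ1 ha hn hyL hb1 ?_
  have han : a + 3 ≤ n := by
    have h1 : 2 ^ (a + 4) ≤ 2 ^ n := (Nat.le_mul_of_pos_left _ (by positivity)).trans hNn
    have := (Nat.pow_le_pow_iff_right (by norm_num)).mp h1
    omega
  have h1 : 2 ^ ((n - a - 3) + 2) * 2 ^ a ≤ (U F M hlam0 (R.Z r)).card := by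
    have h2 : 2 * (2 ^ ((n - a - 3) + 2) * 2 ^ a) ≤ 2 * (U F M hlam0 (R.Z r)).card := by
      calc 2 * (2 ^ ((n - a - 3) + 2) * 2 ^ a) = 2 ^ n := by
            rw [← pow_add, ← pow_succ']
            congr 1
            omega
        _ ≤ _ := hr
    omega
  have h2 := level_bound hlam0 hF hGM R (by omega) hMH hb2 (n - a - 3) r h1
  have h3 : (n - a - 3) ^ 2 ≤ 2 * b * D := h2.trans (Nat.mul_le_mul_left _ hrD)
  have h4 : (((n - a - 3 : ℕ) : ℝ)) = (n : ℝ) - a - 3 := by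
    rw [Nat.cast_sub (by omega), Nat.cast_sub (by omega)]
    norm_num
  rw [← h4]
  exact_mod_cast h3

/-- Existence of the parameters. -/
theorem exists_params (K C : ℕ) (hC : K + 7 ≤ C) (β e δ η : ℝ) (hβ0 : 0 < β)
    (hβC : β ^ C ≤ (1 / 2) ^ (K + 6)) (he0 : 0 < e) (he1 : e < 1) (hδ0 : 0 < δ)
    (hη : 0 < η)
    (hball : ∀ (n : ℕ) (x : Fin n → Bool),
      ((univ.filter (fun y : Fin n → Bool => β * n < agree x y)).card : ℝ)
        ≤ Real.exp (e * n * Real.log 2 - η * n)) :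
    ∃ n₀ : ℕ, ∀ n ≥ n₀, ∃ (a M H N : ℕ) (B : ℝ),
      Params K n (C * (Nat.log 2 n + 1)) (Nat.log 2 n + 1) a M H C β B ∧
      (a : ℝ) ≤ e * n + 1 ∧ 4 ≤ δ * ((1 - e) * n) ∧ 2 / δ ≤ Real.logb 2 N ∧ 1 ≤ N ∧
      (2 * N) ^ N * 2 ^ (a + 4) ≤ 2 ^ n := by
  have he1' : 0 < 1 - e := by linarith
  -- the number N
  set N : ℕ := 2 ^ ⌈2 / δ⌉₊ with hN
  have hN1 : 1 ≤ N := Nat.one_le_two_pow
  have hNlog : 2 / δ ≤ Real.logb 2 N := by
    rw [hN]
    push_cast
    rw [Real.logb_pow, Real.logb_self_eq_one (by norm_num), mul_one]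
    exact Nat.le_ceil _
  -- bounds on n
  set C' : ℕ := ⌈(C : ℝ) * Real.log (1 / β) / η⌉₊ with hC'
  obtain ⟨n₁, hn₁⟩ := log_small C'
  set n₂ : ℕ := ⌈(4 / (δ * (1 - e)) : ℝ)⌉₊ with hn₂
  set X : ℕ := Nat.log 2 ((2 * N) ^ N) + 6 with hX
  set n₃ : ℕ := ⌈(X : ℝ) / (1 - e)⌉₊ with hn₃
  refine ⟨max (max n₁ n₂) (max n₃ (2 ^ 24)), fun n hn => ?_⟩
  have hn1 : n₁ ≤ n := ((le_max_left _ _).trans (le_max_left _ _)).trans hn
  have hn2 : n₂ ≤ n := ((le_max_right _ _).trans (le_max_left _ _)).trans hn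
  have hn3 : n₃ ≤ n := ((le_max_left _ _).trans (le_max_right _ _)).trans hn
  have hn4 : 2 ^ 24 ≤ n := ((le_max_right _ _).trans (le_max_right _ _)).trans hn
  have hen : 4 ≤ δ * ((1 - e) * n) := by
    have h1 : (4 / (δ * (1 - e)) : ℝ) ≤ n := (Nat.le_ceil _).trans (by exact_mod_cast hn2)
    rw [div_le_iff₀ (by positivity)] at h1
    linarith
  have hXn : (X : ℝ) ≤ (1 - e) * n := by
    have h1 : (X : ℝ) / (1 - e) ≤ n := (Nat.le_ceil _).trans (by exact_mod_cast hn3)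
    rw [div_le_iff₀ he1'] at h1
    linarith
  set l := Nat.log 2 n + 1 with hl
  set a := ⌈e * (n : ℝ)⌉₊ with ha
  have hnr : (0 : ℝ) < n := by exact_mod_cast (show 0 < n by omega)
  have ha1 : (a : ℝ) ≤ e * n + 1 := (Nat.ceil_lt_add_one (by positivity)).le
  refine ⟨a, 2 ^ ((K + 2) * l + 11), 2 ^ ((K + 1) * l + 5), N,
    Real.exp (e * n * Real.log 2 - η * n), ?_, ha1, hen, hNlog, hN1, ?_⟩
  · refine
      { hn := Nat.lt_pow_succ_log_self (by norm_num) n
        hl := by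
          have : 24 ≤ Nat.log 2 n := Nat.le_log_of_pow_le (by norm_num) hn4
          omega
        hn2 := by omega
        hw := rfl
        hM := rfl
        hH := rfl
        hβ0 := hβ0
        hβ1 := hβC
        hC := hC
        hB0 := (Real.exp_pos _).le
        hB := hball n
        hBa := ?_ }
    have h1 : ((C : ℝ) * Real.log (1 / β)) * l ≤ η * n := by
      have h2 : (C : ℝ) * Real.log (1 / β) / η ≤ C' := Nat.le_ceil _
      rw [div_le_iff₀ hη] at h2
      have h3 : (C' : ℝ) * l ≤ n := by exact_mod_cast hn₁ n hn1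
      have hl0 : (0 : ℝ) ≤ l := by positivity
      calc ((C : ℝ) * Real.log (1 / β)) * l ≤ (C' * η) * l :=
            mul_le_mul_of_nonneg_right h2 hl0
        _ = η * (C' * l) := by ring
        _ ≤ η * n := mul_le_mul_of_nonneg_left h3 hη.le
    have h2 : β ^ (C * l) = Real.exp (-(C * Real.log (1 / β) * l)) := by
      rw [one_div, Real.log_inv]
      rw [show -(C * -Real.log β * l) = ((C * l : ℕ) : ℝ) * Real.log β by push_cast; ring,
        Real.exp_nat_mul, Real.exp_log hβ0]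
    have h3 : (2 : ℝ) ^ a = Real.exp (a * Real.log 2) := by
      rw [Real.exp_nat_mul, Real.exp_log (by norm_num)]
    rw [h2, h3, ← Real.exp_add]
    apply Real.exp_le_exp.mpr
    have h4 : e * n ≤ a := Nat.le_ceil _
    have h6 : e * n * Real.log 2 ≤ a * Real.log 2 :=
      mul_le_mul_of_nonneg_right h4 (Real.log_nonneg (by norm_num))
    linarith
  · have h1 : (2 * N) ^ N < 2 ^ (Nat.log 2 ((2 * N) ^ N) + 1) :=
      Nat.lt_pow_succ_log_self (by norm_num) _
    have h2 : a + X ≤ n + 1 := by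
      have h3 : (a : ℝ) + X ≤ n + 1 := by nlinarith
      exact_mod_cast h3
    calc (2 * N) ^ N * 2 ^ (a + 4)
        ≤ 2 ^ (Nat.log 2 ((2 * N) ^ N) + 1) * 2 ^ (a + 4) := Nat.mul_le_mul_right _ h1.le
      _ = 2 ^ ((Nat.log 2 ((2 * N) ^ N) + 1) + (a + 4)) := (pow_add _ _ _).symm
      _ ≤ 2 ^ n := by
          apply Nat.pow_le_pow_right (by norm_num)
          omega

open scoped Classical in
/-- One regime of the main theorem, for an arbitrary family of sets. -/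
theorem regime (K C : ℕ) (hC : K + 7 ≤ C) (β e δ η : ℝ) (hβ0 : 0 < β)
    (hβC : β ^ C ≤ (1 / 2) ^ (K + 6)) (he0 : 0 < e) (he1 : e < 1) (hδ0 : 0 < δ)
    (hδ1 : δ ≤ 1 / 3) (hη : 0 < η)
    (hball : ∀ (n : ℕ) (x : Fin n → Bool),
      ((univ.filter (fun y : Fin n → Bool => β * n < agree x y)).card : ℝ)
        ≤ Real.exp (e * n * Real.log 2 - η * n)) :
    ∃ n₀ : ℕ, ∀ n ≥ n₀, ∀ w m : ℕ, w = C * (Nat.log 2 n + 1) → m = 2 * n * 2 ^ w →
    ∀ Q : Finset (Finset (Fin n → Bool)), Q.card ≤ 2 ^ (n ^ K) →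
    ((univ.filter (fun F : CNF n w m => ¬ (Unsat F ∧ ∀ L D : ℕ, AbsRef F Q (n ^ K) L D →
        (1 - 3 * δ) * (1 - e) ^ 2 / 2 * (n : ℝ) ^ 2 ≤ D * Real.logb 2 L))).card : ℝ)
      ≤ (1 / 2) ^ n * Fintype.card (CNF n w m) := by
  obtain ⟨n₀, hn₀⟩ := exists_params K C hC β e δ η hβ0 hβC he0 he1 hδ0 hη hball
  refine ⟨n₀, fun n hn w m hw hm Q hQ => ?_⟩
  obtain ⟨a, M, H, N, B, p, ha, hen, hN, hN1, hNn⟩ := hn₀ n hn
  rw [← hw] at p
  refine le_trans ?_ (prob_core p hm Q hQ)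
  have hsub : (univ.filter (fun F : CNF n w m => ¬ (Unsat F ∧ ∀ L D : ℕ,
      AbsRef F Q (n ^ K) L D →
        (1 - 3 * δ) * (1 - e) ^ 2 / 2 * (n : ℝ) ^ 2 ≤ D * Real.logb 2 L))) ⊆
      univ.filter (fun F : CNF n w m =>
        ¬ (Unsat F ∧ Typical F (2 ^ a) M Q (3 * n + 3) H)) := by
    intro F hF
    rw [mem_filter] at hF ⊢
    exact ⟨mem_univ _, fun hcon => hF.2 ⟨hcon.1, fun L D R =>
      typical_bound p Q F hcon.2 hδ0 hδ1 ha hen hN hN1 hNn R⟩⟩
  exact_mod_cast card_le_card hsub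

open scoped Classical in
/-- The main theorem for an arbitrary family of sets. -/
theorem core (K : ℕ) (ε : ℝ) (hε : 0 < ε) : ∃ C₀ : ℕ, ∀ C ≥ K + 7, ∃ c : ℝ, 0 < c ∧
    (C₀ ≤ C → 1 / 2 - ε ≤ c) ∧ ∃ n₀ : ℕ, ∀ n ≥ n₀, ∀ w m : ℕ,
    w = C * (Nat.log 2 n + 1) → m = 2 * n * 2 ^ w →
    ∀ Q : Finset (Finset (Fin n → Bool)), Q.card ≤ 2 ^ (n ^ K) →
    ((univ.filter (fun F : CNF n w m => ¬ (Unsat F ∧ ∀ L D : ℕ, AbsRef F Q (n ^ K) L D →
        c * (n : ℝ) ^ 2 ≤ D * Real.logb 2 L))).card : ℝ)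
      ≤ (1 / 2) ^ n * Fintype.card (CNF n w m) := by
  set e : ℝ := min (1 / 8) (ε / 4) with he
  have he0 : 0 < e := lt_min (by norm_num) (by positivity)
  have he1 : e ≤ 1 / 8 := min_le_left _ _
  have he2 : e ≤ ε / 4 := min_le_right _ _
  obtain ⟨β, hβ0, hβ1, hball⟩ := card_ball (e / 4) (by positivity)
  have hβpos : 0 < β := by linarith
  obtain ⟨C₁, hC₁⟩ := exists_pow_lt_of_lt_one (show (0 : ℝ) < (1 / 2) ^ (K + 6) by positivity)
    hβ1
  refine ⟨C₁, fun C hC => ?_⟩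
  by_cases hCC : C₁ ≤ C
  · -- large C
    have hβC : β ^ C ≤ (1 / 2) ^ (K + 6) :=
      (pow_le_pow_of_le_one hβpos.le hβ1.le hCC).trans hC₁.le
    have hlog := Real.log_two_gt_d9
    have hball' : ∀ (n : ℕ) (x : Fin n → Bool),
        ((univ.filter (fun y : Fin n → Bool => β * n < agree x y)).card : ℝ)
        ≤ Real.exp (e * n * Real.log 2 - (e * (Real.log 2 - 1 / 4)) * n) := by
      intro n x
      refine (hball n x).trans (le_of_eq ?_)
      congr 1
      ring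
    refine ⟨(1 - 3 * e) * (1 - e) ^ 2 / 2, ?_, ?_, regime K C hC β e e
      (e * (Real.log 2 - 1 / 4)) hβpos hβC he0 (by linarith) he0 (by linarith)
      (by apply mul_pos he0; linarith) hball'⟩
    · have : 0 < 1 - 3 * e := by linarith
      have : 0 < 1 - e := by linarith
      positivity
    · intro _
      have h1 : (1 - 3 * e) * (1 - e) ^ 2 = 1 - 5 * e + e ^ 2 * (7 - 3 * e) := by ring
      have h2 : 0 ≤ e ^ 2 * (7 - 3 * e) := mul_nonneg (sq_nonneg _) (by linarith)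
      rw [h1]
      linarith
  · -- small C
    set d : ℝ := 1 / (2 * C) with hd
    have hC0 : (0 : ℝ) < C := by exact_mod_cast (show 0 < C by omega)
    have hC1 : (1 : ℝ) ≤ C := by exact_mod_cast (show 1 ≤ C by omega)
    have hd0 : 0 < d := by positivity
    have hd1 : d ≤ 1 / 2 := by
      rw [hd]
      apply one_div_le_one_div_of_le (by norm_num)
      linarith
    have hβC : ((1 + d) / 2) ^ C ≤ (1 / 2) ^ (K + 6) := by
      have h1 : (1 + d) ^ C ≤ 2 := by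
        calc (1 + d) ^ C ≤ (Real.exp d) ^ C := by
              apply pow_le_pow_left₀ (by positivity)
              rw [add_comm]
              exact Real.add_one_le_exp _
          _ = Real.exp (1 / 2) := by
              rw [← Real.exp_nat_mul]
              congr 1
              rw [hd]
              field_simp
          _ ≤ 2 := by
              rw [← Real.le_log_iff_exp_le (by norm_num)]
              have := Real.log_two_gt_d9
              linarith
      obtain ⟨C', rfl⟩ : ∃ C', C = C' + 1 := ⟨C - 1, by omega⟩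
      rw [div_pow]
      calc (1 + d) ^ (C' + 1) / 2 ^ (C' + 1) ≤ 2 / 2 ^ (C' + 1) :=
            div_le_div_of_nonneg_right h1 (by positivity)
        _ = (1 / 2) ^ C' := by
            rw [pow_succ, one_div, inv_pow]
            field_simp
        _ ≤ (1 / 2) ^ (K + 6) :=
            pow_le_pow_of_le_one (by norm_num) (by norm_num) (by omega)
    have hlog := Real.log_two_gt_d9
    have hlog2 := Real.log_two_lt_d9
    have hd2 : 0 < d ^ 2 := by positivity
    have hd3 : d ^ 2 ≤ 1 / 4 := by nlinarith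
    have hball' : ∀ (n : ℕ) (x : Fin n → Bool),
        ((univ.filter (fun y : Fin n → Bool => (1 + d) / 2 * n < agree x y)).card : ℝ)
        ≤ Real.exp ((1 - d ^ 2 / 4) * n * Real.log 2 -
            (d ^ 2 / 2 - d ^ 2 / 4 * Real.log 2) * n) := by
      intro n x
      refine (card_agree hd0.le x).trans (le_of_eq ?_)
      congr 1
      ring
    refine ⟨(1 - 3 * (1 / 6)) * (1 - (1 - d ^ 2 / 4)) ^ 2 / 2, ?_, ?_,
      regime K C hC ((1 + d) / 2) (1 - d ^ 2 / 4) (1 / 6)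
      (d ^ 2 / 2 - d ^ 2 / 4 * Real.log 2) (by positivity) hβC (by linarith) (by linarith)
      (by norm_num) (by norm_num) (by nlinarith) hball'⟩
    · have h1 : (1 - 3 * (1 / 6)) * (1 - (1 - d ^ 2 / 4)) ^ 2 / 2
          = (d ^ 2) ^ 2 / 64 := by ring
      rw [h1]
      positivity
    · intro h
      exact absurd h hCC

/-- The false sets of the lines of a refutation. -/
theorem toAbs {n w m S L D : ℕ} {F : CNF n w m} (R : Refutation F S L D) :
    Nonempty (AbsRef F (family n S) S L D) := by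
  refine ⟨{ Z := fun t => falseSet (R.line t)
            mem := fun t => mem_family S (R.line t) (R.size t)
            level := R.level
            sound := ?_
            last := ?_ }⟩
  · intro t
    obtain ⟨P, G, hP, hG, hlev, himp⟩ := R.sound t
    refine ⟨P, G, hP, hG, hlev, fun x hx => ?_⟩
    by_contra hcon
    push Not at hcon
    obtain ⟨h1, h2⟩ := hcon
    have h3 : eval (R.line t) x = true := by
      apply himp x
      · intro s hs
        have := h1 s hs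
        unfold falseSet at this
        simpa using this
      · intro i hi
        have := h2 i hi
        unfold bad at this
        simpa using this
    unfold falseSet at hx
    rw [mem_filter] at hx
    rw [h3] at hx
    simp at hx
  · obtain ⟨t, ht⟩ := R.last
    refine ⟨t, R.level_le t, ?_⟩
    unfold falseSet
    ext x
    simp [ht x]

theorem family_nonempty (n S : ℕ) : (family n S).Nonempty :=
  ⟨_, mem_family S [] (by simp)⟩

theorem family_small (K : ℕ) : ∃ n₀ : ℕ, ∀ n ≥ n₀, (family n (n ^ K)).card ≤ 2 ^ (n ^ (K + 1)) := by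
  obtain ⟨n₁, hn₁⟩ := log_small (4 * K + 20)
  refine ⟨max n₁ 2, fun n hn => ?_⟩
  have hn1 : n₁ ≤ n := (le_max_left _ _).trans hn
  have hn2 : 2 ≤ n := (le_max_right _ _).trans hn
  refine (card_family n (n ^ K)).trans ?_
  set l := Nat.log 2 n + 1 with hl
  have hnl : n < 2 ^ l := Nat.lt_pow_succ_log_self (by norm_num) n
  have hl1 : 1 ≤ l := by omega
  have hnK : n ^ K ≤ 2 ^ (K * l) := by
    calc n ^ K ≤ (2 ^ l) ^ K := Nat.pow_le_pow_left hnl.le _
      _ = _ := by rw [← pow_mul, mul_comm]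
  have h1 : n + n ^ K + 1 ≤ 2 ^ (K * l + l + 2) := by
    have a1 : 1 ≤ 2 ^ (K * l) := Nat.one_le_two_pow
    have a2 : 1 ≤ 2 ^ l := Nat.one_le_two_pow
    have a3 : 2 ^ (K * l + l + 2) = 4 * (2 ^ (K * l) * 2 ^ l) := by
      rw [pow_add, pow_add]; ring
    have a4 : 2 ^ (K * l) ≤ 2 ^ (K * l) * 2 ^ l := Nat.le_mul_of_pos_right _ (by omega)
    have a5 : 2 ^ l ≤ 2 ^ (K * l) * 2 ^ l := Nat.le_mul_of_pos_left _ (by omega)
    omega
  have h2 : 16 * (n + n ^ K + 1) ^ 2 + 1 ≤ 2 ^ (5 + 2 * (K * l + l + 2)) := by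
    have b1 : (n + n ^ K + 1) ^ 2 ≤ (2 ^ (K * l + l + 2)) ^ 2 := Nat.pow_le_pow_left h1 2
    have b2 : 1 ≤ (2 ^ (K * l + l + 2)) ^ 2 := Nat.one_le_pow _ _ (by positivity)
    have b3 : 2 ^ (5 + 2 * (K * l + l + 2)) = 32 * (2 ^ (K * l + l + 2)) ^ 2 := by
      rw [pow_add, ← pow_mul, mul_comm 2 (K * l + l + 2)]; norm_num
    omega
  have h3 : 5 + 2 * (K * l + l + 2) ≤ n := by
    refine le_trans ?_ (hn₁ n hn1)
    nlinarith
  calc (16 * (n + n ^ K + 1) ^ 2 + 1) ^ (n ^ K) ≤ (2 ^ n) ^ (n ^ K) := by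
        apply Nat.pow_le_pow_left
        exact h2.trans (Nat.pow_le_pow_right (by norm_num) h3)
    _ = 2 ^ (n ^ (K + 1)) := by
        rw [← pow_mul, pow_succ, mul_comm]

open scoped Classical in
/-- The main theorem for refutations whose lines are circuits. -/
theorem main (K : ℕ) (ε : ℝ) (hε : 0 < ε) : ∃ C₀ : ℕ, ∀ C ≥ K + 8, ∃ c : ℝ, 0 < c ∧
    (C₀ ≤ C → 1 / 2 - ε ≤ c) ∧ ∃ n₀ : ℕ, ∀ n ≥ n₀, ∀ w m : ℕ,
    w = C * (Nat.log 2 n + 1) → m = 2 * n * 2 ^ w →
    ((univ.filter (fun F : CNF n w m => ¬ (Unsat F ∧ ∀ L D : ℕ, Refutation F (n ^ K) L D →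
        c * (n : ℝ) ^ 2 ≤ D * Real.logb 2 L))).card : ℝ)
      ≤ (1 / 2) ^ n * Fintype.card (CNF n w m) := by
  obtain ⟨C₀, hC₀⟩ := core (K + 1) ε hε
  obtain ⟨n₁, hn₁⟩ := family_small K
  refine ⟨C₀, fun C hC => ?_⟩
  obtain ⟨c, hc, hcC, n₀, hn₀⟩ := hC₀ C (by omega)
  refine ⟨c, hc, hcC, max (max n₀ n₁) 1, fun n hn w m hw hm => ?_⟩
  have hn0 : n₀ ≤ n := ((le_max_left _ _).trans (le_max_left _ _)).trans hn
  have hn1 : n₁ ≤ n := ((le_max_right _ _).trans (le_max_left _ _)).trans hn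
  have hn2 : 1 ≤ n := (le_max_right _ _).trans hn
  refine le_trans ?_ (hn₀ n hn0 w m hw hm (family n (n ^ K)) (hn₁ n hn1))
  have hsub : (univ.filter (fun F : CNF n w m => ¬ (Unsat F ∧ ∀ L D : ℕ,
      Refutation F (n ^ K) L D → c * (n : ℝ) ^ 2 ≤ D * Real.logb 2 L))) ⊆
      univ.filter (fun F : CNF n w m => ¬ (Unsat F ∧ ∀ L D : ℕ,
        AbsRef F (family n (n ^ K)) (n ^ (K + 1)) L D →
          c * (n : ℝ) ^ 2 ≤ D * Real.logb 2 L)) := by
    intro F hF
    rw [mem_filter] at hF ⊢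
    refine ⟨mem_univ _, fun hcon => hF.2 ⟨hcon.1, fun L D R => ?_⟩⟩
    obtain ⟨A⟩ := toAbs R
    have hGG : n ^ K ≤ n ^ (K + 1) := Nat.pow_le_pow_right (by omega) (by omega)
    exact hcon.2 L D
      { Z := A.Z
        mem := A.mem
        level := A.level
        sound := by
          intro t
          obtain ⟨P, G, h1, h2, h3⟩ := A.sound t
          exact ⟨P, G, h1, h2.trans hGG, h3⟩
        last := A.last }
  exact_mod_cast card_le_card hsub

end Pool.Agent.MP_e81270_lc_h78
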