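import Pool.Agent.Lib.MP_e81270_lc_h78.Defs

/-!
# The second moment bound for a random clause
-/

set_option autoImplicit false

namespace Pool.Agent.MP_e81270_lc_h78

open Finset

open scoped Classical in
/-- The assignments that falsify the clause `C`. -/
noncomputable def bad {n w : ℕ} (C : Clause n w) : Finset (Fin n → Bool) :=
  univ.filter (fun x => ¬ Sat x C)

theorem mem_bad {n w : ℕ} (C : Clause n w) (x : Fin n → Bool) :
    x ∈ bad C ↔ ∀ i, C.2 i = !x (C.1 i) := by
  unfold bad Sat
  simp only [mem_filter, mem_univ, true_and, not_exists]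
  refine forall_congr' (fun i => ?_)
  cases x (C.1 i) <;> cases C.2 i <;> simp

/-- The number of variables on which two assignments agree. -/
def agree {n : ℕ} (x y : Fin n → Bool) : ℕ := (univ.filter (fun i => x i = y i)).card

theorem agree_le {n : ℕ} (x y : Fin n → Bool) : agree x y ≤ n := by
  unfold agree
  calc _ ≤ (univ : Finset (Fin n)).card := card_le_card (filter_subset _ _)
    _ = n := by simp

theorem agree_self {n : ℕ} (x : Fin n → Bool) : agree x x = n := by
  simp [agree]

open scoped Classical in
theorem card_pair {n w : ℕ} (x y : Fin n → Bool) :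
    (univ.filter (fun C : Clause n w => x ∈ bad C ∧ y ∈ bad C)).card
      = (agree x y).descFactorial w := by
  have h1 : (agree x y).descFactorial w = Fintype.card (Fin w ↪ {i : Fin n // x i = y i}) := by
    rw [Fintype.card_embedding_eq, Fintype.card_fin, Fintype.card_subtype]
    rfl
  rw [h1, ← Fintype.card_subtype]
  refine Fintype.card_congr ?_
  refine
    { toFun := fun C => ⟨fun i => ⟨C.1.1 i, ?_⟩, ?_⟩
      invFun := fun e => ⟨(⟨fun i => (e i).1, ?_⟩, fun i => !x (e i).1), ?_, ?_⟩
      left_inv := ?_
      right_inv := ?_ }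
  · have h := C.2
    rw [mem_bad, mem_bad] at h
    have h2 := (h.1 i).symm.trans (h.2 i)
    revert h2
    cases x (C.1.1 i) <;> cases y (C.1.1 i) <;> simp
  · intro i j hij
    have : C.1.1 i = C.1.1 j := congrArg Subtype.val hij
    exact C.1.1.injective this
  · intro i j hij
    exact e.injective (Subtype.ext hij)
  · rw [mem_bad]; intro i; rfl
  · rw [mem_bad]; intro i
    change (!x (e i).1) = !y (e i).1
    rw [(e i).2]
  · intro C
    have h := C.2
    rw [mem_bad] at h
    apply Subtype.ext
    refine Prod.ext ?_ ?_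
    · ext i; rfl
    · funext i
      exact (h.1 i).symm
  · intro e
    ext i; rfl

open scoped Classical in
theorem card_single {n w : ℕ} (x : Fin n → Bool) :
    (univ.filter (fun C : Clause n w => x ∈ bad C)).card = n.descFactorial w := by
  have h := card_pair (w := w) x x
  rw [agree_self] at h
  rw [← h]
  congr 1
  ext C
  simp

theorem card_clause (n w : ℕ) : Fintype.card (Clause n w) = n.descFactorial w * 2 ^ w := by
  rw [Fintype.card_prod, Fintype.card_embedding_eq]
  simp

theorem descFactorial_le {n a : ℕ} (han : a ≤ n) (w : ℕ) :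
    (a.descFactorial w : ℝ) ≤ ((a : ℝ) / n) ^ w * n.descFactorial w := by
  induction w with
  | zero => simp
  | succ k ih =>
    rw [Nat.descFactorial_succ, Nat.descFactorial_succ, pow_succ]
    push_cast
    rcases Nat.eq_zero_or_pos n with hn | hn
    · subst hn
      have : a = 0 := by omega
      subst this
      simp
    have hn' : (0 : ℝ) < n := by exact_mod_cast hn
    have h1 : ((a - k : ℕ) : ℝ) ≤ (a : ℝ) / n * ((n - k : ℕ) : ℝ) := by
      rcases le_total a k with h | h
      · rw [Nat.sub_eq_zero_of_le h]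
        simp only [Nat.cast_zero]
        positivity
      · rw [Nat.cast_sub h, Nat.cast_sub (h.trans han)]
        have : (a : ℝ) / n * (n - k) = a - a * k / n := by field_simp
        rw [this]
        have h2 : (a : ℝ) * k / n ≤ k := by
          rw [div_le_iff₀ hn']
          have : (a : ℝ) ≤ n := by exact_mod_cast han
          nlinarith [(Nat.cast_nonneg k : (0 : ℝ) ≤ k)]
        linarith
    calc ((a - k : ℕ) : ℝ) * (a.descFactorial k : ℝ)
        ≤ ((a : ℝ) / n * ((n - k : ℕ) : ℝ)) * (((a : ℝ) / n) ^ k * n.descFactorial k) := by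
          apply mul_le_mul h1 ih (by positivity) (by positivity)
      _ = _ := by ring

theorem sum_exp_agree {n : ℕ} (θ : ℝ) (x : Fin n → Bool) :
    ∑ y : Fin n → Bool, Real.exp (θ * agree x y) = (1 + Real.exp θ) ^ n := by
  have h1 : ∀ y : Fin n → Bool, Real.exp (θ * agree x y)
      = ∏ i, Real.exp (if x i = y i then θ else 0) := by
    intro y
    rw [← Real.exp_sum]
    congr 1
    have : ∀ i, (if x i = y i then θ else 0) = θ * (if x i = y i then (1 : ℝ) else 0) := by
      intro i; split_ifs <;> ring
    simp_rw [this]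
    rw [← mul_sum, sum_boole]
    unfold agree
    ring
  simp_rw [h1]
  have h2 : ∑ y : Fin n → Bool, ∏ i, Real.exp (if x i = y i then θ else 0)
      = ∏ i : Fin n, ∑ b : Bool, Real.exp (if x i = b then θ else 0) := by
    rw [Finset.prod_univ_sum]
    rw [Fintype.piFinset_univ]
  rw [h2]
  have h3 : ∀ i : Fin n, ∑ b : Bool, Real.exp (if x i = b then θ else 0) = 1 + Real.exp θ := by
    intro i
    rw [Fintype.sum_bool]
    cases x i <;> simp
    ring
  simp_rw [h3]
  simp

/-- Few assignments agree with a given one on almost all variables. -/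
theorem card_ball (η : ℝ) (hη : 0 < η) : ∃ β : ℝ, 1 / 2 < β ∧ β < 1 ∧
    ∀ (n : ℕ) (x : Fin n → Bool),
      ((univ.filter (fun y : Fin n → Bool => β * n < agree x y)).card : ℝ)
        ≤ Real.exp (η * n) := by
  set θ : ℝ := max 1 (Real.log (2 / η)) with hθ
  have hθ1 : 1 ≤ θ := le_max_left _ _
  have hθ0 : 0 < θ := by linarith
  set δ : ℝ := min (1 / 4) (η / (2 * θ)) with hδ
  have hδ0 : 0 < δ := lt_min (by norm_num) (by positivity)
  have hδ1 : δ ≤ 1 / 4 := min_le_left _ _
  have hδ2 : δ * θ ≤ η / 2 := by
    have : δ ≤ η / (2 * θ) := min_le_right _ _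
    calc δ * θ ≤ η / (2 * θ) * θ := mul_le_mul_of_nonneg_right this hθ0.le
      _ = η / 2 := by field_simp
  have hexp : Real.exp (-θ) ≤ η / 2 := by
    have h1 : Real.log (2 / η) ≤ θ := le_max_right _ _
    calc Real.exp (-θ) ≤ Real.exp (-Real.log (2 / η)) := Real.exp_le_exp.mpr (by linarith)
      _ = η / 2 := by
        rw [Real.exp_neg, Real.exp_log (by positivity), inv_div]
  refine ⟨1 - δ, by linarith, by linarith, fun n x => ?_⟩
  have h1 : ((univ.filter (fun y : Fin n → Bool => (1 - δ) * n < agree x y)).card : ℝ)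
      * Real.exp (θ * ((1 - δ) * n)) ≤ (1 + Real.exp θ) ^ n := by
    rw [← sum_exp_agree θ x]
    calc ((univ.filter (fun y : Fin n → Bool => (1 - δ) * n < agree x y)).card : ℝ)
          * Real.exp (θ * ((1 - δ) * n))
        = ∑ y ∈ univ.filter (fun y : Fin n → Bool => (1 - δ) * n < agree x y),
            Real.exp (θ * ((1 - δ) * n)) := by simp
      _ ≤ ∑ y ∈ univ.filter (fun y : Fin n → Bool => (1 - δ) * n < agree x y),
            Real.exp (θ * agree x y) := by
          apply sum_le_sum
          intro y hy
          rw [mem_filter] at hy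
          apply Real.exp_le_exp.mpr
          exact mul_le_mul_of_nonneg_left hy.2.le hθ0.le
      _ ≤ _ := by
          apply sum_le_sum_of_subset_of_nonneg (filter_subset _ _)
          intro y _ _
          positivity
  have h2 : (1 + Real.exp θ) ^ n ≤ Real.exp (θ * n + η / 2 * n) := by
    have h3 : 1 + Real.exp θ ≤ Real.exp (θ + η / 2) := by
      have h4 : 1 + Real.exp θ = Real.exp θ * (1 + Real.exp (-θ)) := by
        rw [mul_add, mul_one, ← Real.exp_add]
        simp [add_comm]
      rw [h4, Real.exp_add]
      apply mul_le_mul_of_nonneg_left _ (Real.exp_pos _).le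
      have := Real.add_one_le_exp (η / 2)
      linarith
    calc (1 + Real.exp θ) ^ n ≤ (Real.exp (θ + η / 2)) ^ n :=
          pow_le_pow_left₀ (by positivity) h3 n
      _ = _ := by rw [← Real.exp_nat_mul]; congr 1; ring
  have h3 : ((univ.filter (fun y : Fin n → Bool => (1 - δ) * n < agree x y)).card : ℝ)
      * Real.exp (θ * ((1 - δ) * n)) ≤ Real.exp (η * n) * Real.exp (θ * ((1 - δ) * n)) := by
    refine h1.trans (h2.trans ?_)
    rw [← Real.exp_add]
    apply Real.exp_le_exp.mpr
    have hn : (0 : ℝ) ≤ n := by positivity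
    nlinarith
  exact le_of_mul_le_mul_right h3 (Real.exp_pos _)

/-- Chernoff: few assignments agree with a given one on more than `(1+d)n/2` variables. -/
theorem card_agree {n : ℕ} {d : ℝ} (hd : 0 ≤ d) (x : Fin n → Bool) :
    ((univ.filter (fun y : Fin n → Bool => (1 + d) / 2 * n < agree x y)).card : ℝ)
      ≤ Real.exp (n * Real.log 2 - d ^ 2 / 2 * n) := by
  have h1 : ((univ.filter (fun y : Fin n → Bool => (1 + d) / 2 * n < agree x y)).card : ℝ)
      * Real.exp (2 * d * ((1 + d) / 2 * n)) ≤ (1 + Real.exp (2 * d)) ^ n := by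
    rw [← sum_exp_agree (2 * d) x]
    calc ((univ.filter (fun y : Fin n → Bool => (1 + d) / 2 * n < agree x y)).card : ℝ)
          * Real.exp (2 * d * ((1 + d) / 2 * n))
        = ∑ y ∈ univ.filter (fun y : Fin n → Bool => (1 + d) / 2 * n < agree x y),
            Real.exp (2 * d * ((1 + d) / 2 * n)) := by simp
      _ ≤ ∑ y ∈ univ.filter (fun y : Fin n → Bool => (1 + d) / 2 * n < agree x y),
            Real.exp (2 * d * agree x y) := by
          apply sum_le_sum
          intro y hy
          rw [mem_filter] at hy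
          apply Real.exp_le_exp.mpr
          exact mul_le_mul_of_nonneg_left hy.2.le (by positivity)
      _ ≤ _ := by
          apply sum_le_sum_of_subset_of_nonneg (filter_subset _ _)
          intro y _ _
          positivity
  have h2 : (1 + Real.exp (2 * d)) ^ n
      ≤ Real.exp (n * Real.log 2 + d * n + d ^ 2 / 2 * n) := by
    have h3 : 1 + Real.exp (2 * d) = 2 * Real.exp d * Real.cosh d := by
      rw [Real.cosh_eq]
      have h4 : Real.exp (2 * d) = Real.exp d * Real.exp d := by
        rw [← Real.exp_add]; congr 1; ring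
      have h5 : Real.exp d * Real.exp (-d) = 1 := by
        rw [← Real.exp_add]; simp
      rw [h4]
      linear_combination (-1 : ℝ) * h5
    rw [h3]
    calc (2 * Real.exp d * Real.cosh d) ^ n
        ≤ (Real.exp (Real.log 2) * Real.exp d * Real.exp (d ^ 2 / 2)) ^ n := by
          apply pow_le_pow_left₀ (by positivity [Real.cosh_pos d])
          rw [Real.exp_log (by norm_num)]
          exact mul_le_mul_of_nonneg_left (Real.cosh_le_exp_half_sq d) (by positivity)
      _ = _ := by
          rw [← Real.exp_add, ← Real.exp_add, ← Real.exp_nat_mul]; congr 1; ring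
  have h3 : ((univ.filter (fun y : Fin n → Bool => (1 + d) / 2 * n < agree x y)).card : ℝ)
      * Real.exp (2 * d * ((1 + d) / 2 * n))
      ≤ Real.exp (n * Real.log 2 - d ^ 2 / 2 * n) * Real.exp (2 * d * ((1 + d) / 2 * n)) := by
    refine h1.trans (h2.trans (le_of_eq ?_))
    rw [← Real.exp_add]
    congr 1
    ring
  exact le_of_mul_le_mul_right h3 (Real.exp_pos _)

open scoped Classical in
theorem sum_sq {n w : ℕ} (A : Finset (Fin n → Bool)) :
    ∑ C : Clause n w, ((A ∩ bad C).card : ℝ) ^ 2
      = ∑ x ∈ A, ∑ y ∈ A, ((agree x y).descFactorial w : ℝ) := by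
  have h1 : ∀ C : Clause n w, ((A ∩ bad C).card : ℝ) ^ 2
      = ∑ x ∈ A, ∑ y ∈ A, (if x ∈ bad C ∧ y ∈ bad C then (1 : ℝ) else 0) := by
    intro C
    have h2 : ((A ∩ bad C).card : ℝ) = ∑ x ∈ A, (if x ∈ bad C then (1 : ℝ) else 0) := by
      rw [sum_boole, filter_mem_eq_inter]
    rw [sq, h2, sum_mul_sum]
    refine sum_congr rfl (fun x _ => sum_congr rfl (fun y _ => ?_))
    by_cases hx : x ∈ bad C <;> by_cases hy : y ∈ bad C <;> simp [hx, hy]
  simp_rw [h1]
  rw [sum_comm]
  refine sum_congr rfl (fun x _ => ?_)
  rw [sum_comm]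
  refine sum_congr rfl (fun y _ => ?_)
  rw [sum_boole, card_pair]

/-- The second moment bound. -/
theorem sum_sq_le {n w : ℕ} {β B : ℝ} (hβ : 0 ≤ β) (hB0 : 0 ≤ B)
    (hB : ∀ x : Fin n → Bool,
      ((univ.filter (fun y : Fin n → Bool => β * n < agree x y)).card : ℝ) ≤ B)
    (A : Finset (Fin n → Bool)) :
    ∑ C : Clause n w, ((A ∩ bad C).card : ℝ) ^ 2
      ≤ n.descFactorial w * (A.card * (A.card * β ^ w + B)) := by
  classical
  rw [sum_sq]
  rcases Nat.eq_zero_or_pos n with hn | hn
  · subst hn
    rcases Nat.eq_zero_or_pos w with hw | hw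
    · subst hw
      simp only [Nat.descFactorial_zero, Nat.cast_one, sum_const, nsmul_eq_mul, mul_one, pow_zero,
        one_mul]
      apply mul_le_mul_of_nonneg_left _ (by positivity)
      linarith
    · have h : ∀ x y : Fin 0 → Bool, (agree x y).descFactorial w = 0 := by
        intro x y
        apply Nat.descFactorial_of_lt
        have := agree_le x y
        omega
      simp only [h, Nat.cast_zero, sum_const_zero]
      positivity
  have hn' : (0 : ℝ) < n := by exact_mod_cast hn
  have hx : ∀ x ∈ A, ∑ y ∈ A, ((agree x y).descFactorial w : ℝ)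
      ≤ n.descFactorial w * (A.card * β ^ w + B) := by
    intro x _
    have hy : ∀ y ∈ A, ((agree x y).descFactorial w : ℝ) ≤
        n.descFactorial w * (β ^ w + (if β * n < agree x y then (1 : ℝ) else 0)) := by
      intro y _
      refine (descFactorial_le (agree_le x y) w).trans ?_
      rw [mul_comm]
      apply mul_le_mul_of_nonneg_left _ (by positivity)
      split_ifs with h
      · have h1 : ((agree x y : ℝ) / n) ^ w ≤ 1 := by
          apply pow_le_one₀ (by positivity)
          rw [div_le_one hn']
          exact_mod_cast agree_le x y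
        have h2 : (0 : ℝ) ≤ β ^ w := by positivity
        linarith
      · rw [add_zero]
        apply pow_le_pow_left₀ (by positivity)
        rw [div_le_iff₀ hn']
        push Not at h
        linarith
    refine (sum_le_sum hy).trans ?_
    rw [← mul_sum]
    apply mul_le_mul_of_nonneg_left _ (by positivity)
    rw [sum_add_distrib]
    apply add_le_add
    · simp
    · rw [sum_boole]
      refine le_trans ?_ (hB x)
      exact_mod_cast card_le_card (filter_subset_filter _ (subset_univ A))
  refine (sum_le_sum hx).trans ?_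
  rw [sum_const, nsmul_eq_mul]
  apply le_of_eq
  ring

open scoped Classical in
/-- Few clauses are heavy for a given large set of assignments. -/
theorem heavy_card {n w M : ℕ} {β B q : ℝ} (hβ : 0 ≤ β) (hB0 : 0 ≤ B)
    (hB : ∀ x : Fin n → Bool,
      ((univ.filter (fun y : Fin n → Bool => β * n < agree x y)).card : ℝ) ≤ B)
    (A : Finset (Fin n → Bool)) (hA : 0 < A.card)
    (hq : (M : ℝ) ^ 2 * (β ^ w + B / A.card) ≤ q * 2 ^ w) :
    ((univ.filter (fun C : Clause n w => A.card ≤ M * (A ∩ bad C).card)).card : ℝ)
      ≤ q * Fintype.card (Clause n w) := by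
  have hA' : (0 : ℝ) < A.card := by exact_mod_cast hA
  have h1 : ((univ.filter (fun C : Clause n w => A.card ≤ M * (A ∩ bad C).card)).card : ℝ)
      * (A.card : ℝ) ^ 2 ≤ M ^ 2 * ∑ C : Clause n w, ((A ∩ bad C).card : ℝ) ^ 2 := by
    rw [mul_sum]
    calc ((univ.filter (fun C : Clause n w => A.card ≤ M * (A ∩ bad C).card)).card : ℝ)
          * (A.card : ℝ) ^ 2
        = ∑ C ∈ univ.filter (fun C : Clause n w => A.card ≤ M * (A ∩ bad C).card),
            (A.card : ℝ) ^ 2 := by simp
      _ ≤ ∑ C ∈ univ.filter (fun C : Clause n w => A.card ≤ M * (A ∩ bad C).card),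
            (M : ℝ) ^ 2 * ((A ∩ bad C).card : ℝ) ^ 2 := by
          apply sum_le_sum
          intro C hC
          rw [mem_filter] at hC
          rw [← mul_pow]
          apply pow_le_pow_left₀ hA'.le
          exact_mod_cast hC.2
      _ ≤ _ := by
          apply sum_le_sum_of_subset_of_nonneg (filter_subset _ _)
          intro y _ _
          positivity
  have h2 := sum_sq_le (w := w) hβ hB0 hB A
  rw [card_clause]
  have h3 : ((univ.filter (fun C : Clause n w => A.card ≤ M * (A ∩ bad C).card)).card : ℝ)
      * (A.card : ℝ) ^ 2 ≤ (q * (n.descFactorial w * 2 ^ w)) * (A.card : ℝ) ^ 2 := by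
    refine h1.trans ((mul_le_mul_of_nonneg_left h2 (by positivity)).trans ?_)
    have h4 : (M : ℝ) ^ 2 * (n.descFactorial w * (A.card * (A.card * β ^ w + B)))
        = n.descFactorial w * (A.card : ℝ) ^ 2 *
          ((M : ℝ) ^ 2 * (β ^ w + B / A.card)) := by
      field_simp
    rw [h4]
    calc _ ≤ n.descFactorial w * (A.card : ℝ) ^ 2 * (q * 2 ^ w) :=
          mul_le_mul_of_nonneg_left hq (by positivity)
      _ = _ := by ring
  have h5 := le_of_mul_le_mul_right h3 (by positivity)
  push_cast
  exact h5

end Pool.Agent.MP_e81270_lc_h78
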