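import Pool.Agent.Lib.MP_e81270_lc_h78.History

/-!
# Walking down a refutation of a typical formula
-/

set_option autoImplicit false

namespace Pool.Agent.MP_e81270_lc_h78

open Finset

variable {n w m L : ℕ}

/-- An abstract refutation: `Z t` is the set of assignments that falsify line `t`. -/
structure AbsRef (F : CNF n w m) (Q : Finset (Finset (Fin n → Bool))) (G₀ L D : ℕ) where
  Z : Fin L → Finset (Fin n → Bool)
  mem : ∀ t, Z t ∈ Q
  level : Fin L → ℕ
  sound : ∀ t, ∃ (P : Finset (Fin L)) (G : Finset (Fin m)), P.card ≤ 2 ∧ G.card ≤ G₀ ∧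
    (∀ s ∈ P, level s < level t) ∧
    ∀ x ∈ Z t, (∃ s ∈ P, x ∈ Z s) ∨ ∃ i ∈ G, x ∈ bad (F i)
  last : ∃ t, level t ≤ D ∧ Z t = univ

theorem run_single (F : CNF n w m) (Z : Finset (Fin n → Bool)) :
    run F [((some (Z, true), ∅) : Step n m)] = Z := by
  rw [run_cons]
  simp [run, app]

/-- The cleaned version of the false set of line `t`. -/
theorem exists_U (F : CNF n w m) {lam M : ℕ} (hlam : 0 < lam) (Z : Finset (Fin n → Bool)) :
    ∃ ks : List (Finset (Fin m)), ks.length ≤ n + 1 ∧
      Valid F lam M (ks.map (fun S => ((none, S) : Step n m)) ++ [(some (Z, true), ∅)]) ∧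
      ((run F (ks.map (fun S => ((none, S) : Step n m)) ++ [(some (Z, true), ∅)])).card < lam ∨
        Clean F M (run F (ks.map (fun S => ((none, S) : Step n m)) ++
          [(some (Z, true), ∅)]))) := by
  apply exists_clean F hlam (n + 1)
  · exact ⟨trivial, by simp⟩
  · rw [run_single]
    have : Z.card ≤ 2 ^ n := by
      refine (card_le_univ _).trans (le_of_eq ?_)
      simp
    refine lt_of_le_of_lt this ?_
    exact Nat.pow_lt_pow_right (by norm_num) (by omega)

/-- The history of the cleaned false set. -/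
noncomputable def hist (F : CNF n w m) {lam : ℕ} (M : ℕ) (hlam : 0 < lam)
    (Z : Finset (Fin n → Bool)) : List (Step n m) :=
  ((exists_U (M := M) F hlam Z).choose).map (fun S => ((none, S) : Step n m)) ++
    [(some (Z, true), ∅)]

/-- The cleaned false set. -/
noncomputable def U (F : CNF n w m) {lam : ℕ} (M : ℕ) (hlam : 0 < lam)
    (Z : Finset (Fin n → Bool)) : Finset (Fin n → Bool) :=
  run F (hist F M hlam Z)

theorem hist_valid (F : CNF n w m) {lam M : ℕ} (hlam : 0 < lam) (Z : Finset (Fin n → Bool)) :
    Valid F lam M (hist F M hlam Z) :=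
  (exists_U F hlam Z).choose_spec.2.1

theorem U_clean (F : CNF n w m) {lam M : ℕ} (hlam : 0 < lam) (Z : Finset (Fin n → Bool))
    (h : lam ≤ (U F M hlam Z).card) : Clean F M (U F M hlam Z) := by
  rcases (exists_U (M := M) F hlam Z).choose_spec.2.2 with h1 | h1
  · exact absurd h1 (not_lt.mpr h)
  · exact h1

theorem U_subset (F : CNF n w m) {lam M : ℕ} (hlam : 0 < lam) (Z : Finset (Fin n → Bool)) :
    U F M hlam Z ⊆ Z := by
  refine (run_kill_append_subset F _ _).trans ?_
  rw [run_single]

theorem hist_uses {Q : Finset (Finset (Fin n → Bool))} (F : CNF n w m) {lam M : ℕ}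
    (hlam : 0 < lam) (Z : Finset (Fin n → Bool)) (hZ : Z ∈ Q) :
    Uses Q (hist F M hlam Z) :=
  uses_kill_append Q _ _ ⟨hZ, trivial⟩

theorem hist_length (F : CNF n w m) {lam M : ℕ} (hlam : 0 < lam) (Z : Finset (Fin n → Bool)) :
    (hist F M hlam Z).length ≤ n + 2 := by
  unfold hist
  have := (exists_U (M := M) F hlam Z).choose_spec.1
  rw [List.length_append, List.length_map]
  simp only [List.length_cons, List.length_nil]
  omega

/-- A clean subset of the false set of a line lies mostly in the cleaned false set. -/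
theorem card_sdiff_U {Q : Finset (Finset (Fin n → Bool))} {lam M R H : ℕ} (F : CNF n w m)
    (hlam : 0 < lam) (hR : n + 2 ≤ R) (hF : Typical F lam M Q R H)
    (A Z : Finset (Fin n → Bool)) (hZ : Z ∈ Q) (hA : Clean F M A) (hAZ : A ⊆ Z) :
    M * (A \ U F M hlam Z).card ≤ 2 * H * A.card := by
  have h1 := card_lost F A hA ((exists_U (M := M) F hlam Z).choose)
    [((some (Z, true), ∅) : Step n m)]
  rw [run_single, inter_eq_left.mpr hAZ] at h1
  have h3 := hF (hist F M hlam Z) (hist_uses F hlam Z hZ) ((hist_length F hlam Z).trans hR)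
    (hist_valid F hlam Z)
  have h4 : kills [((some (Z, true), ∅) : Step n m)] = 0 := rfl
  rw [h4] at h1
  have h5 : 2 * kills (hist F M hlam Z) * A.card ≤ 2 * H * A.card :=
    Nat.mul_le_mul_right _ (Nat.mul_le_mul_left _ h3.le)
  refine le_trans ?_ h5
  refine le_trans ?_ h1
  exact Nat.le_add_right _ _

/-- The lines at least `k` levels below line `t`. -/
def below {Q : Finset (Finset (Fin n → Bool))} {G₀ D : ℕ} {F : CNF n w m}
    (A : AbsRef F Q G₀ L D) (k : ℕ) (t : Fin L) : Finset (Fin L) :=
  univ.filter (fun s => A.level s + k ≤ A.level t)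

/-- Cleaning one side of a split. -/
theorem side {Q : Finset (Finset (Fin n → Bool))} {lam M R H : ℕ} (F : CNF n w m)
    (hF : Typical F lam M Q R H) (hlam : 0 < lam)
    (A : Finset (Fin n → Bool)) (hA : Clean F M A) (l : List (Step n m))
    (o : Option (Finset (Fin n → Bool) × Bool))
    (hv : Valid F lam M l) (hu : Uses Q l) (ho : UsesOpt Q o) (hR : l.length + 1 ≤ R)
    (hl : app (run F l) o ⊆ A) (V : Finset (Fin n → Bool)) (c₁ c₂ : ℕ)
    (hV : ∀ l' : List (Step n m), Valid F lam M l' → Uses Q l' → l'.length = l.length + 1 →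
      run F l' ⊆ app (run F l) o → lam ≤ (run F l').card → Clean F M (run F l') →
      M * (run F l' \ V).card ≤ M * (c₁ * lam) + c₂ * (run F l').card) (hc₁ : 1 ≤ c₁) :
    M * (app (run F l) o \ V).card
      ≤ 4 * H * A.card + M * (c₁ * lam) + c₂ * (app (run F l) o).card := by
  set B := app (run F l) o with hB
  set S := heavySet F lam M B with hS
  have hv' : Valid F lam M ((o, S) :: l) := by
    refine ⟨hv, fun i hi => ?_⟩
    rw [hS, mem_heavySet] at hi
    exact hi
  have hu' : Uses Q ((o, S) :: l) := ⟨ho, hu⟩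
  have hk := hF _ hu' (by rw [List.length_cons]; exact hR) hv'
  have hSH : S.card ≤ H := by
    have : kills ((o, S) :: l) = S.card + kills l := rfl
    omega
  have hrun : run F ((o, S) :: l) = B \ S.biUnion (fun i => bad (F i)) := rfl
  have hsub : run F ((o, S) :: l) ⊆ B := by rw [hrun]; exact sdiff_subset
  have hlost : M * (B \ run F ((o, S) :: l)).card ≤ 2 * H * A.card := by
    refine (card_covered F A hA S _ (sdiff_subset.trans hl) ?_).trans ?_
    · intro x hx
      rw [hrun, mem_sdiff, mem_sdiff] at hx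
      push Not at hx
      have := hx.2 hx.1
      rw [mem_biUnion] at this
      exact this
    · exact Nat.mul_le_mul_right _ (Nat.mul_le_mul_left _ hSH)
  have hBcard : B.card = (B \ run F ((o, S) :: l)).card + (run F ((o, S) :: l)).card := by
    have := card_sdiff_add_card_inter B (run F ((o, S) :: l))
    rw [inter_eq_right.mpr hsub] at this
    exact this.symm
  have hsplit : (B \ V).card ≤ (B \ run F ((o, S) :: l)).card +
      (run F ((o, S) :: l) \ V).card := by
    refine (card_le_card ?_).trans (card_union_le _ _)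
    intro x hx
    simp only [mem_sdiff, mem_union] at hx ⊢
    tauto
  rcases Nat.lt_or_ge (run F ((o, S) :: l)).card lam with hs | hs
  · have h1 : (run F ((o, S) :: l) \ V).card ≤ c₁ * lam := by
      refine (card_le_card sdiff_subset).trans (hs.le.trans ?_)
      exact Nat.le_mul_of_pos_left _ hc₁
    calc M * (B \ V).card ≤ M * ((B \ run F ((o, S) :: l)).card + c₁ * lam) :=
          Nat.mul_le_mul_left _ (by omega)
      _ = M * (B \ run F ((o, S) :: l)).card + M * (c₁ * lam) := by ring
      _ ≤ 2 * H * A.card + M * (c₁ * lam) := Nat.add_le_add_right hlost _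
      _ ≤ _ := by
        have : 2 * H * A.card ≤ 4 * H * A.card :=
          Nat.mul_le_mul_right _ (Nat.mul_le_mul_right _ (by norm_num))
        omega
  · rcases Nat.lt_or_ge (2 * (run F ((o, S) :: l)).card) B.card with hh | hh
    · calc M * (B \ V).card ≤ M * (2 * (B \ run F ((o, S) :: l)).card) := by
            apply Nat.mul_le_mul_left
            have : (B \ V).card ≤ B.card := card_le_card sdiff_subset
            omega
        _ = 2 * (M * (B \ run F ((o, S) :: l)).card) := by ring
        _ ≤ 2 * (2 * H * A.card) := Nat.mul_le_mul_left _ hlost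
        _ = 4 * H * A.card := by ring
        _ ≤ _ := by omega
    · have hlamB : lam ≤ B.card := hs.trans (card_le_card hsub)
      have hcl : Clean F M (run F ((o, S) :: l)) := by
        rw [hrun] at hh hs ⊢
        have hpos : 0 < (B \ S.biUnion (fun i => bad (F i))).card := by omega
        exact clean_of_half F B hlamB hh hpos
      have h1 := hV _ hv' hu' (by rw [List.length_cons]) hsub hs hcl
      have h2 : c₂ * (run F ((o, S) :: l)).card ≤ c₂ * B.card :=
        Nat.mul_le_mul_left _ (card_le_card hsub)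
      calc M * (B \ V).card ≤ M * ((B \ run F ((o, S) :: l)).card +
              (run F ((o, S) :: l) \ V).card) := Nat.mul_le_mul_left _ hsplit
        _ = M * (B \ run F ((o, S) :: l)).card + M * (run F ((o, S) :: l) \ V).card := by ring
        _ ≤ 2 * H * A.card + (M * (c₁ * lam) + c₂ * (run F ((o, S) :: l)).card) :=
            Nat.add_le_add hlost h1
        _ ≤ _ := by
          have : 2 * H * A.card ≤ 4 * H * A.card :=
            Nat.mul_le_mul_right _ (Nat.mul_le_mul_right _ (by norm_num))
          omega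

open scoped Classical in
/-- The walk: `k` levels below line `t`, almost all of a clean set is still in cleaned false
sets. -/
theorem walk {Q : Finset (Finset (Fin n → Bool))} {lam M R H G₀ D : ℕ} {F : CNF n w m}
    (hlam : 0 < lam) (hF : Typical F lam M Q R H) (hGM : 2 * G₀ < M)
    (A : AbsRef F Q G₀ L D) (k : ℕ) :
    ∀ (t : Fin L) (l : List (Step n m)), Valid F lam M l → Uses Q l →
      l.length + 2 * k ≤ R → n + 2 ≤ R → lam ≤ (run F l).card → Clean F M (run F l) →
      run F l ⊆ A.Z t →
      M * (run F l \ (below A k t).biUnion (fun s => U F M hlam (A.Z s))).card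
        ≤ M * (2 ^ k * lam) + (k * (8 * H + 2 * G₀) + 2 * H) * (run F l).card := by
  induction k with
  | zero =>
    intro t l hv hu hq hq1 hs hc hl
    have h1 := card_sdiff_U F hlam hq1 hF (run F l) (A.Z t) (A.mem t) hc hl
    have h2 : run F l \ (below A 0 t).biUnion (fun s => U F M hlam (A.Z s))
        ⊆ run F l \ U F M hlam (A.Z t) := by
      apply sdiff_subset_sdiff Subset.rfl
      intro x hx
      rw [mem_biUnion]
      exact ⟨t, by simp [below], hx⟩
    calc M * (run F l \ (below A 0 t).biUnion (fun s => U F M hlam (A.Z s))).card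
        ≤ M * (run F l \ U F M hlam (A.Z t)).card := Nat.mul_le_mul_left _ (card_le_card h2)
      _ ≤ 2 * H * (run F l).card := h1
      _ = (0 * (8 * H + 2 * G₀) + 2 * H) * (run F l).card := by ring
      _ ≤ _ := Nat.le_add_left _ _
  | succ k ih =>
    intro t l hv hu hq hq1 hs hc hl
    obtain ⟨P, G, hP2, hG, hlev, hcov⟩ := A.sound t
    have hpos : 0 < (run F l).card := lt_of_lt_of_le hlam hs
    -- there is a premise
    have hab : ∃ a ∈ P, ∃ b ∈ P, ∀ s ∈ P, s = a ∨ s = b := by
      have hne : P ≠ ∅ := by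
        rintro rfl
        have h1 := card_covered F (run F l) hc G (run F l) Subset.rfl (by
          intro x hx
          rcases hcov x (hl hx) with ⟨s, hs, _⟩ | h
          · simp at hs
          · exact h)
        have := Nat.le_of_mul_le_mul_right h1 hpos
        omega
      have hcard : P.card = 1 ∨ P.card = 2 := by
        have := card_pos.mpr (nonempty_iff_ne_empty.mpr hne)
        omega
      rcases hcard with h | h
      · obtain ⟨a, rfl⟩ := card_eq_one.mp h
        exact ⟨a, by simp, a, by simp, by simp⟩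
      · obtain ⟨a, b, _, rfl⟩ := card_eq_two.mp h
        exact ⟨a, by simp, b, by simp, by simp⟩
    obtain ⟨a, haP, b, hbP, hab⟩ := hab
    set V := (below A (k + 1) t).biUnion (fun s => U F M hlam (A.Z s)) with hVdef
    have hVsub : ∀ s ∈ P, (below A k s).biUnion (fun s => U F M hlam (A.Z s)) ⊆ V := by
      intro s hs
      apply biUnion_subset_biUnion_of_subset_left
      intro r hr
      have := hlev s hs
      simp only [below, mem_filter, mem_univ, true_and] at hr ⊢
      omega
    -- the two sides
    have hA₁ : app (run F l) (some (A.Z a, true)) = run F l ∩ A.Z a := rfl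
    have hrun₂ : run F (((some (A.Z a, false), ∅) : Step n m) :: l) = run F l \ A.Z a := by
      rw [run_cons]
      simp [app]
    have hA₂ : app (run F (((some (A.Z a, false), ∅) : Step n m) :: l)) (some (A.Z b, true))
        = (run F l \ A.Z a) ∩ A.Z b := by
      rw [hrun₂]
      rfl
    have side1 := side F hF hlam (run F l) hc l (some (A.Z a, true)) hv hu (A.mem a) (by omega)
      (by rw [hA₁]; exact inter_subset_left) V
      (2 ^ k) (k * (8 * H + 2 * G₀) + 2 * H)
      (by
        intro l' h1 h2 h3 h4 h5 h6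
        refine le_trans ?_ (ih a l' h1 h2 (by omega) hq1 h5 h6 ?_)
        · exact Nat.mul_le_mul_left _ (card_le_card (sdiff_subset_sdiff Subset.rfl (hVsub a haP)))
        · exact h4.trans (by rw [hA₁]; exact inter_subset_right))
      (Nat.one_le_two_pow)
    have side2 := side F hF hlam (run F l) hc (((some (A.Z a, false), ∅) : Step n m) :: l)
      (some (A.Z b, true)) ⟨hv, by simp⟩ ⟨A.mem a, hu⟩ (A.mem b)
      (by rw [List.length_cons]; omega)
      (by rw [hA₂]; exact inter_subset_left.trans sdiff_subset) V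
      (2 ^ k) (k * (8 * H + 2 * G₀) + 2 * H)
      (by
        intro l' h1 h2 h3 h4 h5 h6
        rw [List.length_cons] at h3
        refine le_trans ?_ (ih b l' h1 h2 (by omega) hq1 h5 h6 ?_)
        · exact Nat.mul_le_mul_left _ (card_le_card (sdiff_subset_sdiff Subset.rfl (hVsub b hbP)))
        · exact h4.trans (by rw [hA₂]; exact inter_subset_right))
      (Nat.one_le_two_pow)
    -- the part covered by clauses
    have side3 : M * ((run F l \ A.Z a) \ A.Z b).card ≤ 2 * G₀ * (run F l).card := by
      refine (card_covered F (run F l) hc G _ (sdiff_subset.trans sdiff_subset) ?_).trans ?_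
      · intro x hx
        simp only [mem_sdiff] at hx
        rcases hcov x (hl hx.1.1) with ⟨s, hs, hxs⟩ | h
        · rcases hab s hs with rfl | rfl
          · exact absurd hxs hx.1.2
          · exact absurd hxs hx.2
        · exact h
      · exact Nat.mul_le_mul_right _ (Nat.mul_le_mul_left _ hG)
    have hsum : (run F l ∩ A.Z a).card + ((run F l \ A.Z a) ∩ A.Z b).card
        ≤ (run F l).card := by
      have h1 := card_sdiff_add_card_inter (run F l) (A.Z a)
      have h2 : ((run F l \ A.Z a) ∩ A.Z b).card ≤ (run F l \ A.Z a).card :=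
        card_le_card inter_subset_left
      omega
    have hsplit : run F l \ V ⊆ ((run F l ∩ A.Z a) \ V) ∪ (((run F l \ A.Z a) ∩ A.Z b) \ V) ∪
        ((run F l \ A.Z a) \ A.Z b) := by
      intro x hx
      simp only [mem_sdiff, mem_union, mem_inter] at hx ⊢
      tauto
    rw [hA₁] at side1
    rw [hA₂] at side2
    have hcards : (run F l \ V).card ≤ ((run F l ∩ A.Z a) \ V).card +
        (((run F l \ A.Z a) ∩ A.Z b) \ V).card + ((run F l \ A.Z a) \ A.Z b).card :=
      (card_le_card hsplit).trans ((card_union_le _ _).trans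
        (Nat.add_le_add_right (card_union_le _ _) _))
    calc M * (run F l \ V).card
        ≤ M * (((run F l ∩ A.Z a) \ V).card +
        (((run F l \ A.Z a) ∩ A.Z b) \ V).card + ((run F l \ A.Z a) \ A.Z b).card) :=
          Nat.mul_le_mul_left _ hcards
      _ = M * ((run F l ∩ A.Z a) \ V).card + M * (((run F l \ A.Z a) ∩ A.Z b) \ V).card
          + M * ((run F l \ A.Z a) \ A.Z b).card := by ring
      _ ≤ (4 * H * (run F l).card + M * (2 ^ k * lam) +
            (k * (8 * H + 2 * G₀) + 2 * H) * (run F l ∩ A.Z a).card) +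
          (4 * H * (run F l).card + M * (2 ^ k * lam) +
            (k * (8 * H + 2 * G₀) + 2 * H) * ((run F l \ A.Z a) ∩ A.Z b).card) +
          2 * G₀ * (run F l).card := by
            exact Nat.add_le_add (Nat.add_le_add side1 side2) side3
      _ = M * (2 ^ (k + 1) * lam) + (8 * H + 2 * G₀) * (run F l).card +
          (k * (8 * H + 2 * G₀) + 2 * H) * ((run F l ∩ A.Z a).card +
            ((run F l \ A.Z a) ∩ A.Z b).card) := by ring
      _ ≤ M * (2 ^ (k + 1) * lam) + (8 * H + 2 * G₀) * (run F l).card +
          (k * (8 * H + 2 * G₀) + 2 * H) * (run F l).card :=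
            Nat.add_le_add_left (Nat.mul_le_mul_left _ hsum) _
      _ = _ := by ring

open scoped Classical in
/-- One phase: from a line with large cleaned false set to a line `T` levels below. -/
theorem phase {Q : Finset (Finset (Fin n → Bool))} {lam M R H G₀ D T : ℕ} {F : CNF n w m}
    (hlam : 0 < lam) (hF : Typical F lam M Q R H) (hGM : 2 * G₀ < M)
    (A : AbsRef F Q G₀ L D) (hq : n + 2 + 2 * T ≤ R)
    (hM : 4 * (T * (8 * H + 2 * G₀) + 2 * H) ≤ M) (t : Fin L)
    (ht : 2 ^ (T + 2) * lam ≤ (U F M hlam (A.Z t)).card) :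
    ∃ s, A.level s + T ≤ A.level t ∧
      (U F M hlam (A.Z t)).card ≤ 2 * L * (U F M hlam (A.Z s)).card := by
  have hlt : lam ≤ (U F M hlam (A.Z t)).card := by
    refine le_trans ?_ ht
    exact Nat.le_mul_of_pos_left _ (by positivity)
  have hlen := hist_length F (M := M) hlam (A.Z t)
  have h1 := walk hlam hF hGM A T t (hist F M hlam (A.Z t)) (hist_valid F hlam _)
    (hist_uses F hlam _ (A.mem t)) (by omega) (by omega) hlt
    (U_clean F hlam _ hlt) (U_subset F hlam _)
  change M * (U F M hlam (A.Z t) \ (below A T t).biUnion (fun s => U F M hlam (A.Z s))).card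
        ≤ M * (2 ^ T * lam) + (T * (8 * H + 2 * G₀) + 2 * H) * (U F M hlam (A.Z t)).card at h1
  set u := (U F M hlam (A.Z t)).card with hu
  set W := (below A T t).biUnion (fun s => U F M hlam (A.Z s)) with hW
  have hM0 : 0 < M := by omega
  have h2 : 4 * (M * (U F M hlam (A.Z t) \ W).card) ≤ M * (2 * u) := by
    calc 4 * (M * (U F M hlam (A.Z t) \ W).card)
        ≤ 4 * (M * (2 ^ T * lam) + (T * (8 * H + 2 * G₀) + 2 * H) * u) :=
          Nat.mul_le_mul_left _ h1
      _ = M * (2 ^ (T + 2) * lam) + (4 * (T * (8 * H + 2 * G₀) + 2 * H)) * u := by ring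
      _ ≤ M * u + M * u := Nat.add_le_add (Nat.mul_le_mul_left _ ht) (Nat.mul_le_mul_right _ hM)
      _ = _ := by ring
  have h3 : 2 * (U F M hlam (A.Z t) \ W).card ≤ u := by
    have : M * (4 * (U F M hlam (A.Z t) \ W).card) ≤ M * (2 * u) := by
      calc _ = 4 * (M * (U F M hlam (A.Z t) \ W).card) := by ring
        _ ≤ _ := h2
    have := Nat.le_of_mul_le_mul_left this hM0
    omega
  have h4 : u ≤ (U F M hlam (A.Z t) \ W).card + W.card := by
    have := card_sdiff_add_card_inter (U F M hlam (A.Z t)) W
    have h5 : (U F M hlam (A.Z t) ∩ W).card ≤ W.card := card_le_card inter_subset_right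
    omega
  have h5 : u ≤ 2 * W.card := by omega
  have hupos : 0 < u := lt_of_lt_of_le hlam hlt
  -- pigeonhole
  by_contra hcon
  push Not at hcon
  have h6 : W.card * L ≤ L * 0 + ∑ s ∈ below A T t, L * (U F M hlam (A.Z s)).card := by
    rw [mul_zero, zero_add, ← mul_sum, mul_comm]
    exact Nat.mul_le_mul_left _ card_biUnion_le
  have h7 : ∀ s ∈ below A T t, 2 * (L * (U F M hlam (A.Z s)).card) < u := by
    intro s hs
    have := hcon s (by simpa [below] using hs)
    calc 2 * (L * (U F M hlam (A.Z s)).card) = 2 * L * (U F M hlam (A.Z s)).card := by ring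
      _ < u := this
  rcases (below A T t).eq_empty_or_nonempty with he | hne
  · have : W = ∅ := by rw [hW, he]; simp
    rw [this] at h5
    simp at h5
    omega
  · have h8 : ∑ s ∈ below A T t, 2 * (L * (U F M hlam (A.Z s)).card)
        < ∑ _s ∈ below A T t, u := sum_lt_sum_of_nonempty hne h7
    rw [sum_const, smul_eq_mul, ← mul_sum] at h8
    have h9 : (below A T t).card ≤ L := by
      refine (card_le_univ _).trans ?_
      simp
    have h10 : (below A T t).card * u ≤ L * u := Nat.mul_le_mul_right _ h9
    have h11 : L * u ≤ L * (2 * W.card) := Nat.mul_le_mul_left _ h5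
    nlinarith

/-- The level of a line with a large cleaned false set is large. -/
theorem level_bound {Q : Finset (Finset (Fin n → Bool))} {lam M R H G₀ D b : ℕ} {F : CNF n w m}
    (hlam : 0 < lam) (hF : Typical F lam M Q R H) (hGM : 2 * G₀ < M)
    (A : AbsRef F Q G₀ L D) (hq : 3 * n + 2 ≤ R)
    (hM : 4 * (n * (8 * H + 2 * G₀) + 2 * H) ≤ M) (hb : 2 * L ≤ 2 ^ b) :
    ∀ (s : ℕ) (t : Fin L), 2 ^ (s + 2) * lam ≤ (U F M hlam (A.Z t)).card →
      s ^ 2 ≤ 2 * b * A.level t := by
  intro s
  induction s using Nat.strong_induction_on with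
  | _ s ih =>
    intro t ht
    have hsn : s ≤ n := by
      have h1 : (U F M hlam (A.Z t)).card ≤ 2 ^ n := by
        refine (card_le_univ _).trans (le_of_eq ?_)
        simp
      have h2 : 2 ^ (s + 2) ≤ 2 ^ n :=
        (Nat.le_mul_of_pos_right _ hlam).trans (ht.trans h1)
      have := (Nat.pow_le_pow_iff_right (by norm_num)).mp h2
      omega
    have hM' : 4 * (s * (8 * H + 2 * G₀) + 2 * H) ≤ M := by
      refine le_trans ?_ hM
      apply Nat.mul_le_mul_left
      exact Nat.add_le_add_right (Nat.mul_le_mul_right _ hsn) _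
    obtain ⟨r, h1, h2⟩ := phase hlam hF hGM A (by omega) hM' t ht
    rcases Nat.lt_or_ge (2 * b) s with hs | hs
    · have hb0 : 0 < b := by
        rcases Nat.eq_zero_or_pos b with h | h
        · subst h
          have := t.2
          simp at hb
          omega
        · exact h
      have h3 : 2 ^ (s - b + 2) * lam ≤ (U F M hlam (A.Z r)).card := by
        have h4 : 2 ^ b * (2 ^ (s - b + 2) * lam) ≤ 2 ^ b * (U F M hlam (A.Z r)).card := by
          calc 2 ^ b * (2 ^ (s - b + 2) * lam) = 2 ^ (s + 2) * lam := by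
                rw [← mul_assoc, ← pow_add]
                congr 2
                omega
            _ ≤ (U F M hlam (A.Z t)).card := ht
            _ ≤ 2 * L * (U F M hlam (A.Z r)).card := h2
            _ ≤ _ := Nat.mul_le_mul_right _ hb
        exact Nat.le_of_mul_le_mul_left h4 (by positivity)
      have h4 := ih (s - b) (by omega) r h3
      obtain ⟨c, rfl⟩ : ∃ c, s = c + b := ⟨s - b, by omega⟩
      rw [Nat.add_sub_cancel] at h4
      have h5 : 2 * b * (A.level r + (c + b)) ≤ 2 * b * A.level t := Nat.mul_le_mul_left _ h1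
      nlinarith
    · have h3 : s ≤ A.level t := by omega
      calc s ^ 2 = s * s := by ring
        _ ≤ 2 * b * A.level t := Nat.mul_le_mul hs h3

/-- A line with a large cleaned false set has many lines below it. -/
theorem many_below {Q : Finset (Finset (Fin n → Bool))} {lam M R H G₀ D : ℕ} {F : CNF n w m}
    (hlam : 0 < lam) (hF : Typical F lam M Q R H) (hGM : 2 * G₀ < M)
    (A : AbsRef F Q G₀ L D) (hq : n + 4 ≤ R) (hM : 4 * (1 * (8 * H + 2 * G₀) + 2 * H) ≤ M) :
    ∀ (k : ℕ) (t : Fin L), (2 * L) ^ k * (2 ^ 3 * lam) ≤ (U F M hlam (A.Z t)).card →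
      k ≤ (univ.filter (fun s => A.level s < A.level t)).card := by
  intro k
  induction k with
  | zero => intro t _; exact Nat.zero_le _
  | succ k ih =>
    intro t ht
    have hLpos : 0 < L := lt_of_le_of_lt (Nat.zero_le _) t.2
    have h0 : 2 ^ (1 + 2) * lam ≤ (U F M hlam (A.Z t)).card := by
      refine le_trans ?_ ht
      exact Nat.le_mul_of_pos_left _ (by positivity)
    obtain ⟨r, h1, h2⟩ := phase hlam hF hGM A (by omega) hM t h0
    have h3 : (2 * L) ^ k * (2 ^ 3 * lam) ≤ (U F M hlam (A.Z r)).card := by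
      have h4 : (2 * L) * ((2 * L) ^ k * (2 ^ 3 * lam))
          ≤ (2 * L) * (U F M hlam (A.Z r)).card := by
        calc (2 * L) * ((2 * L) ^ k * (2 ^ 3 * lam)) = (2 * L) ^ (k + 1) * (2 ^ 3 * lam) := by
              rw [pow_succ]; ring
          _ ≤ _ := ht
          _ ≤ _ := h2
      exact Nat.le_of_mul_le_mul_left h4 (by omega)
    have h4 := ih r h3
    have h5 : univ.filter (fun s => A.level s < A.level r) ⊂
        univ.filter (fun s => A.level s < A.level t) := by
      rw [ssubset_iff_of_subset]
      · refine ⟨r, ?_, ?_⟩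
        · simp only [mem_filter, mem_univ, true_and]; omega
        · simp
      · intro s hs
        simp only [mem_filter, mem_univ, true_and] at hs ⊢
        omega
    have := card_lt_card h5
    omega

/-- The root has a large cleaned false set. -/
theorem root_large {Q : Finset (Finset (Fin n → Bool))} {lam M R H G₀ D : ℕ} {F : CNF n w m}
    (hlam : 0 < lam) (hF : Typical F lam M Q R H) (hMw : M < 2 ^ w)
    (hbad : ∀ C : Clause n w, 2 ^ w * (bad C).card = 2 ^ n)
    (A : AbsRef F Q G₀ L D) (hq : n + 2 ≤ R) (hM : 4 * H ≤ M) (hM0 : 0 < M) :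
    ∃ r, A.level r ≤ D ∧ 2 ^ n ≤ 2 * (U F M hlam (A.Z r)).card := by
  classical
  obtain ⟨r, hrD, hr⟩ := A.last
  refine ⟨r, hrD, ?_⟩
  have hcl : Clean F M (univ : Finset (Fin n → Bool)) := by
    intro i
    rw [univ_inter, card_univ]
    have h1 := hbad (F i)
    have h2 : Fintype.card (Fin n → Bool) = 2 ^ n := by simp
    rw [h2]
    have h3 : M * (bad (F i)).card ≤ 2 ^ w * (bad (F i)).card := Nat.mul_le_mul_right _ hMw.le
    have h4 : 0 < 2 ^ n := by positivity
    omega
  have h1 := card_sdiff_U F hlam hq hF univ (A.Z r) (A.mem r) hcl (by rw [hr])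
  have h2 : (univ : Finset (Fin n → Bool)).card = 2 ^ n := by simp
  have h3 := card_sdiff_add_card_inter (univ : Finset (Fin n → Bool)) (U F M hlam (A.Z r))
  rw [univ_inter, h2] at h3
  rw [h2] at h1
  have h4 : 2 * (univ \ U F M hlam (A.Z r)).card ≤ 2 ^ n := by
    have h5 : M * (2 * (univ \ U F M hlam (A.Z r)).card) ≤ M * 2 ^ n := by
      calc M * (2 * (univ \ U F M hlam (A.Z r)).card)
          = 2 * (M * (univ \ U F M hlam (A.Z r)).card) := by ring
        _ ≤ 2 * (2 * H * 2 ^ n) := Nat.mul_le_mul_left _ h1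
        _ = (4 * H) * 2 ^ n := by ring
        _ ≤ M * 2 ^ n := Nat.mul_le_mul_right _ hM
    exact Nat.le_of_mul_le_mul_left h5 hM0
  omega

end Pool.Agent.MP_e81270_lc_h78
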